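import Pool.Agent.H65.MG.Fld

/-!
# Module CURV: the closed curve of configurations
-/

set_option autoImplicit false
set_option linter.unusedSectionVars false

noncomputable section

open Classical Module
open scoped Matrix
open Pool.Agent.H52.MG

namespace Pool.Agent.H65.MG

section
variable {V : Type} [Fintype V]

/-! ### the reflection -/

/-- linear part of the reflection with normal vector `n` -/
def lr (n y : Vec) : Vec := y - (2 * (n ⬝ᵥ y) / (n ⬝ᵥ n)) • n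

lemma lr_add (n y z : Vec) : lr n (y + z) = lr n y + lr n z := by
  rw [lr, lr, lr, dotProduct_add]
  funext i
  simp only [Pi.sub_apply, Pi.add_apply, Pi.smul_apply, smul_eq_mul]
  ring

lemma lr_smul (n : Vec) (r : ℝ) (y : Vec) : lr n (r • y) = r • lr n y := by
  rw [lr, lr, dotProduct_smul]
  funext i
  simp only [Pi.sub_apply, Pi.smul_apply, smul_eq_mul]
  ring

lemma lr_sub (n y z : Vec) : lr n (y - z) = lr n y - lr n z := by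
  rw [lr, lr, lr, dotProduct_sub]
  funext i
  simp only [Pi.sub_apply, Pi.smul_apply, smul_eq_mul]
  ring

lemma lr_dot (n y z : Vec) (hn : n ⬝ᵥ n ≠ 0) : lr n y ⬝ᵥ lr n z = y ⬝ᵥ z := by
  have h1 : lr n y ⬝ᵥ lr n z = y ⬝ᵥ z - 2 * (n ⬝ᵥ z) / (n ⬝ᵥ n) * (n ⬝ᵥ y)
      - 2 * (n ⬝ᵥ y) / (n ⬝ᵥ n) * (n ⬝ᵥ z) +
      2 * (n ⬝ᵥ y) / (n ⬝ᵥ n) * (2 * (n ⬝ᵥ z) / (n ⬝ᵥ n)) * (n ⬝ᵥ n) := by
    rw [lr, lr, sub_dotProduct, dotProduct_sub, dotProduct_sub, smul_dotProduct, smul_dotProduct,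
      dotProduct_smul, dotProduct_smul, dotProduct_comm y n]
    simp only [smul_eq_mul]
    ring
  rw [h1]
  field_simp
  ring

lemma lr_symm (n y z : Vec) : y ⬝ᵥ lr n z = lr n y ⬝ᵥ z := by
  rw [lr, lr, dotProduct_sub, sub_dotProduct, smul_dotProduct, dotProduct_smul,
    dotProduct_comm y n]
  simp only [smul_eq_mul]
  ring

lemma lr_lr (n y : Vec) (hn : n ⬝ᵥ n ≠ 0) : lr n (lr n y) = y := by
  have h1 : n ⬝ᵥ lr n y = - (n ⬝ᵥ y) := by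
    rw [lr, dotProduct_sub, dotProduct_smul, smul_eq_mul]
    field_simp
    ring
  rw [lr, h1]
  funext i
  simp only [lr, Pi.sub_apply, Pi.smul_apply, smul_eq_mul]
  ring

lemma lr_self (n : Vec) (hn : n ⬝ᵥ n ≠ 0) : lr n n = - n := by
  funext i
  simp only [lr, Pi.sub_apply, Pi.smul_apply, smul_eq_mul, Pi.neg_apply]
  field_simp
  ring

lemma lr_perp (n y : Vec) (h : n ⬝ᵥ y = 0) : lr n y = y := by
  funext i
  simp only [lr, h, Pi.sub_apply, Pi.smul_apply, smul_eq_mul]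
  ring

lemma refl3_eq (a b e y : Vec) : refl3 a b e y =
    lr ((b - a) ⨯₃ (e - a)) y + (2 * (((b - a) ⨯₃ (e - a)) ⬝ᵥ a) /
      (((b - a) ⨯₃ (e - a)) ⬝ᵥ ((b - a) ⨯₃ (e - a)))) • ((b - a) ⨯₃ (e - a)) := by
  rw [refl3, lr, dotProduct_sub]
  funext i
  simp only [Pi.sub_apply, Pi.add_apply, Pi.smul_apply, smul_eq_mul]
  ring

lemma refl3_sub (a b e y z : Vec) : refl3 a b e y - refl3 a b e z =
    lr ((b - a) ⨯₃ (e - a)) (y - z) := by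
  rw [refl3_eq, refl3_eq, lr_sub]
  abel

/-- squared norm of the cross product -/
lemma cross_sq (a b : Vec) : (a ⨯₃ b) ⬝ᵥ (a ⨯₃ b) = (a ⬝ᵥ a) * (b ⬝ᵥ b) - (a ⬝ᵥ b) ^ 2 := by
  rw [cross_eq, dot3, dot3, dot3, dot3]
  simp only [Matrix.cons_val]
  ring

/-- the reflection on configurations, linear part -/
def Lr (n : Vec) : (V → Vec) →ₗ[ℝ] (V → Vec) where
  toFun m := fun v => lr n (m v)
  map_add' _ _ := funext fun _ => lr_add n _ _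
  map_smul' _ _ := funext fun _ => lr_smul n _ _

lemma Lr_apply (n : Vec) (m : V → Vec) (v : V) : Lr n m v = lr n (m v) := rfl

/-- as an endomorphism of `V × Fin 3 → ℝ` -/
def Lk (n : Vec) : (V × Fin 3 → ℝ) →ₗ[ℝ] (V × Fin 3 → ℝ) :=
  ((crv V).symm : (V → Vec) →ₗ[ℝ] (V × Fin 3 → ℝ)) ∘ₗ (Lr n) ∘ₗ
    (crv V : (V × Fin 3 → ℝ) →ₗ[ℝ] (V → Vec))

lemma Lk_apply (n : Vec) (x : V × Fin 3 → ℝ) (c : V × Fin 3) :
    Lk n x c = lr n (crv V x c.1) c.2 := rfl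

lemma crv_Lk (n : Vec) (x : V × Fin 3 → ℝ) : crv V (Lk n x) = Lr n (crv V x) := by
  funext v i
  rfl

def Rm (V : Type) [Fintype V] (n : Vec) : Matrix (V × Fin 3) (V × Fin 3) ℝ :=
  LinearMap.toMatrix' (Lk n)

lemma Rm_mul (n : Vec) (hn : n ⬝ᵥ n ≠ 0) : Rm V n * Rm V n = 1 := by
  rw [Rm, ← LinearMap.toMatrix'_comp]
  have : (Lk n : (V × Fin 3 → ℝ) →ₗ[ℝ] (V × Fin 3 → ℝ)) ∘ₗ Lk n = LinearMap.id := by
    apply LinearMap.ext
    intro x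
    funext c
    rw [LinearMap.comp_apply, Lk_apply, crv_Lk, Lr_apply, lr_lr n _ hn]
    rfl
  rw [this, LinearMap.toMatrix'_id]

/-- the reflected configuration -/
def sg (p : V → Vec) (x₁ x₂ x₃ : V) (q : V → Vec) : V → Vec :=
  fun v => refl3 (p x₁) (p x₂) (p x₃) (q v)

/-- signs of the rows -/
def Dg : Ix V → ℝ
  | Sum.inl _ => 1
  | Sum.inr x => if x.2 = 2 then -1 else 1

/-- the frame of the triangle -/
def fr (p : V → Vec) (x₁ x₂ x₃ : V) : Fin 3 → Vec :=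
  ![p x₂ - p x₁, p x₃ - p x₁, (p x₂ - p x₁) ⨯₃ (p x₃ - p x₁)]

lemma fr_frame (p : V → Vec) (x₁ x₂ x₃ : V) (hn : (p x₂ - p x₁) ⨯₃ (p x₃ - p x₁) ≠ 0) :
    Frame (fr p x₁ x₂ x₃) := ⟨hn, rfl⟩

lemma lr_fr (p : V → Vec) (x₁ x₂ x₃ : V) (hn : (p x₂ - p x₁) ⨯₃ (p x₃ - p x₁) ≠ 0) (k : Fin 3) :
    lr ((p x₂ - p x₁) ⨯₃ (p x₃ - p x₁)) (fr p x₁ x₂ x₃ k) =
      (if k = 2 then (-1 : ℝ) else 1) • fr p x₁ x₂ x₃ k := by
  have hnn : ((p x₂ - p x₁) ⨯₃ (p x₃ - p x₁)) ⬝ᵥ ((p x₂ - p x₁) ⨯₃ (p x₃ - p x₁)) ≠ 0 :=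
    fun h0 => hn (dotProduct_self_eq_zero.mp h0)
  fin_cases k
  · simp only [Fin.zero_eta, fr, Matrix.cons_val_zero]
    rw [lr_perp]
    · simp
    · rw [cross_eq, dot3]
      simp only [Matrix.cons_val]
      ring
  · simp only [Fin.mk_one, fr, Matrix.cons_val_one]
    rw [lr_perp]
    · simp
    · rw [cross_eq, dot3]
      simp only [Matrix.cons_val]
      ring
  · simp only [Fin.reduceFinMk, fr, Matrix.cons_val]
    rw [lr_self _ hnn]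
    simp

lemma row_refl (p : V → Vec) (x₁ x₂ x₃ : V) (hn : (p x₂ - p x₁) ⨯₃ (p x₃ - p x₁) ≠ 0)
    (q : V → Vec) (j : Ix V) (x : V × Fin 3 → ℝ) :
    ∑ c, row (fr p x₁ x₂ x₃) (sg p x₁ x₂ x₃ q) j c *
        Lk ((p x₂ - p x₁) ⨯₃ (p x₃ - p x₁)) x c =
      Dg j * ∑ c, row (fr p x₁ x₂ x₃) q j c * x c := by
  have hnn : ((p x₂ - p x₁) ⨯₃ (p x₃ - p x₁)) ⬝ᵥ ((p x₂ - p x₁) ⨯₃ (p x₃ - p x₁)) ≠ 0 :=
    fun h0 => hn (dotProduct_self_eq_zero.mp h0)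
  have e1 : ∑ c, row (fr p x₁ x₂ x₃) (sg p x₁ x₂ x₃ q) j c *
        Lk ((p x₂ - p x₁) ⨯₃ (p x₃ - p x₁)) x c =
      ∑ c : V × Fin 3, row (fr p x₁ x₂ x₃) (sg p x₁ x₂ x₃ q) j c *
        (Lr ((p x₂ - p x₁) ⨯₃ (p x₃ - p x₁)) (crv V x)) c.1 c.2 := rfl
  have e2 : ∑ c, row (fr p x₁ x₂ x₃) q j c * x c =
      ∑ c : V × Fin 3, row (fr p x₁ x₂ x₃) q j c * (crv V x) c.1 c.2 := rfl
  rw [e1, e2]
  cases j with
  | inl y =>
    obtain ⟨u, w⟩ := y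
    rw [row_inl, row_inl]
    simp only [Dg, one_mul, sg, Lr_apply]
    rw [refl3_sub, ← lr_sub, lr_dot _ _ _ hnn]
  | inr y =>
    obtain ⟨v, k⟩ := y
    rw [row_inr, row_inr]
    simp only [Dg, Lr_apply]
    rw [lr_symm, lr_fr p x₁ x₂ x₃ hn, smul_dotProduct, smul_eq_mul]

theorem fld_refl (p : V → Vec) (x₁ x₂ x₃ : V) (hn : (p x₂ - p x₁) ⨯₃ (p x₃ - p x₁) ≠ 0)
    {b : Set (Ix V)} (e : Option b ≃ V × Fin 3) :
    ∃ ε : ℝ, (ε = 1 ∨ ε = -1) ∧ ∀ q : V → Vec,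
      fld e (fr p x₁ x₂ x₃) x₁ x₂ x₃ (sg p x₁ x₂ x₃ q) =
        ε • Lr ((p x₂ - p x₁) ⨯₃ (p x₃ - p x₁)) (fld e (fr p x₁ x₂ x₃) x₁ x₂ x₃ q) := by
  have hnn : ((p x₂ - p x₁) ⨯₃ (p x₃ - p x₁)) ⬝ᵥ ((p x₂ - p x₁) ⨯₃ (p x₃ - p x₁)) ≠ 0 :=
    fun h0 => hn (dotProduct_self_eq_zero.mp h0)
  obtain ⟨ε, hε, h⟩ := crs_symm e (Rm V ((p x₂ - p x₁) ⨯₃ (p x₃ - p x₁)))
    (by
      have q1 := Rm_mul (V := V) _ hnn
      refine q1.trans ?_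
      congr
      exact Subsingleton.elim _ _)
    (fun j : b => Dg (j : Ix V)) (by
      rintro ⟨j, hj⟩
      cases j with
      | inl x => left; rfl
      | inr x =>
        simp only [Dg]
        by_cases h : x.2 = 2
        · right; rw [if_pos h]
        · left; rw [if_neg h])
  refine ⟨ε, hε, fun q => ?_⟩
  have h1 := h (fun j : b => row (fr p x₁ x₂ x₃) q j)
    (fun j : b => row (fr p x₁ x₂ x₃) (sg p x₁ x₂ x₃ q) j) (by
      intro j d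
      have h2 := row_refl p x₁ x₂ x₃ hn q (j : Ix V) (Pi.single d 1)
      have h3 : ∑ c, row (fr p x₁ x₂ x₃) q (j : Ix V) c * (Pi.single d (1:ℝ) : V × Fin 3 → ℝ) c =
          row (fr p x₁ x₂ x₃) q (j : Ix V) d := by
        rw [Finset.sum_eq_single d]
        · simp
        · intro c _ hc
          rw [Pi.single_eq_of_ne hc, mul_zero]
        · simp
      rw [h3] at h2
      rw [← h2]
      refine Finset.sum_congr rfl fun c _ => ?_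
      rw [Rm, LinearMap.toMatrix'_apply])
  have hD : nr x₁ x₂ x₃ (sg p x₁ x₂ x₃ q) ⬝ᵥ nr x₁ x₂ x₃ (sg p x₁ x₂ x₃ q) =
      nr x₁ x₂ x₃ q ⬝ᵥ nr x₁ x₂ x₃ q := by
    rw [nr, nr, cross_sq, cross_sq]
    simp only [sg]
    rw [refl3_sub, refl3_sub, lr_dot _ _ _ hnn, lr_dot _ _ _ hnn, lr_dot _ _ _ hnn]
  rw [fld, hD, h1, fld, map_smul, map_smul, smul_comm]
  congr 2
  have h4 : (Rm V ((p x₂ - p x₁) ⨯₃ (p x₃ - p x₁))).mulVec
      (crs e fun j : b => row (fr p x₁ x₂ x₃) q j) =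
      Lk ((p x₂ - p x₁) ⨯₃ (p x₃ - p x₁)) (crs e fun j : b => row (fr p x₁ x₂ x₃) q j) := by
    rw [Rm, LinearMap.toMatrix'_mulVec]
  rw [h4, crv_Lk]

/-! ### the field is tangent to the fibres -/

lemma rows_of_mem (p : V → Vec) (H : SimpleGraph V) (q : V → Vec) (x₁ x₂ x₃ : V)
    (hn : (p x₂ - p x₁) ⨯₃ (p x₃ - p x₁) ≠ 0)
    (b : Set (Ix V)) (hb1 : b ⊆ Jx H x₁ x₂ x₃) (m : V → Vec) (hm : m ∈ Pn H q x₁ x₂ x₃) (j : b) :
    ∑ c, row (fr p x₁ x₂ x₃) q j c * ((crv V).symm m) c = 0 :=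
  (ker_J (fr_frame p x₁ x₂ x₃ hn) H q x₁ x₂ x₃ m).mpr hm j (hb1 j.2)

theorem fld_tangent (p : V → Vec) (H : SimpleGraph V) (x₁ x₂ x₃ : V)
    (hn : (p x₂ - p x₁) ⨯₃ (p x₃ - p x₁) ≠ 0)
    (h12 : H.Adj x₁ x₂) (h13 : H.Adj x₁ x₃) (h23 : H.Adj x₂ x₃)
    (b : Set (Ix V)) (hb1 : b ⊆ Jx H x₁ x₂ x₃) (e : Option b ≃ V × Fin 3)
    (q : V → Vec) (hq : 7 ≤ finrank ℝ (infMot H q)) :
    fderiv ℝ (gm H x₁ x₂ x₃) q (fld e (fr p x₁ x₂ x₃) x₁ x₂ x₃ q) = 0 := by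
  rw [fderiv_gm_eq_zero]
  by_cases hnr : nr x₁ x₂ x₃ q = 0
  · rw [fld, hnr, zero_dotProduct, zero_smul]
    exact Submodule.zero_mem _
  by_cases hc : crs e (fun j : b => row (fr p x₁ x₂ x₃) q j) = 0
  · rw [fld, hc, map_zero, smul_zero]
    exact Submodule.zero_mem _
  have hd := pindim H q x₁ x₂ x₃ h12 h13 h23 hnr
  have hpos : 0 < finrank ℝ (Pn H q x₁ x₂ x₃) := by omega
  have : Nontrivial (Pn H q x₁ x₂ x₃) := finrank_pos_iff.mp hpos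
  obtain ⟨m, hm⟩ := exists_ne (0 : Pn H q x₁ x₂ x₃)
  obtain ⟨r, hr⟩ := crs_span e _ hc ((crv V).symm (m : V → Vec))
    (fun j => rows_of_mem p H q x₁ x₂ x₃ hn b hb1 m m.2 j)
  have hr0 : r ≠ 0 := by
    intro h0
    apply hm
    rw [h0, zero_smul] at hr
    have h2 : (m : V → Vec) = 0 := by
      have := congrArg (crv V) hr
      simpa using this
    exact Subtype.ext h2
  have h3 : crv V (crs e (fun j : b => row (fr p x₁ x₂ x₃) q j)) = r⁻¹ • (m : V → Vec) := by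
    have := congrArg (crv V) hr
    rw [LinearEquiv.apply_symm_apply, map_smul] at this
    rw [this, smul_smul, inv_mul_cancel₀ hr0, one_smul]
  rw [fld, h3]
  exact Submodule.smul_mem _ _ (Submodule.smul_mem _ _ m.2)

theorem fld_fibre (p : V → Vec) (H : SimpleGraph V) (x₁ x₂ x₃ : V)
    (hn : (p x₂ - p x₁) ⨯₃ (p x₃ - p x₁) ≠ 0)
    (b : Set (Ix V)) (hb1 : b ⊆ Jx H x₁ x₂ x₃) (hb2 : Px x₁ x₂ x₃ ⊆ b)
    (e : Option b ≃ V × Fin 3) (q : V → Vec) (hq : gm H x₁ x₂ x₃ q = gm H x₁ x₂ x₃ p)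
    (hP : finrank ℝ (Pn (H0 b x₁ x₂ x₃) q x₁ x₂ x₃) = 1) :
    fld e (fr p x₁ x₂ x₃) x₁ x₂ x₃ q ≠ 0 ∧ ∀ y, fderiv ℝ (gm H x₁ x₂ x₃) q y = 0 →
      ∃ r : ℝ, y = r • fld e (fr p x₁ x₂ x₃) x₁ x₂ x₃ q := by
  rw [gm_eq_iff] at hq
  have hnr : nr x₁ x₂ x₃ q ⬝ᵥ nr x₁ x₂ x₃ q ≠ 0 := by
    rw [nr, hq.2.1, hq.2.2.1, hq.2.2.2]
    exact fun h0 => hn (dotProduct_self_eq_zero.mp h0)
  obtain ⟨m, hm0, hm⟩ := finrank_eq_one_iff'.mp hP
  have hcrs : crs e (fun j : b => row (fr p x₁ x₂ x₃) q j) ≠ 0 := by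
    apply crs_ne_zero e _ ((crv V).symm (m : V → Vec))
    · intro h0
      apply hm0
      have := congrArg (crv V) h0
      rw [LinearEquiv.apply_symm_apply, map_zero] at this
      exact Subtype.ext this
    · intro x hx
      have h1 : crv V x ∈ Pn (H0 b x₁ x₂ x₃) q x₁ x₂ x₃ :=
        (ker_b (fr_frame p x₁ x₂ x₃ hn) H q x₁ x₂ x₃ b hb1 hb2 (crv V x)).mp
          (fun j hj => hx ⟨j, hj⟩)
      obtain ⟨c, hc⟩ := hm ⟨crv V x, h1⟩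
      refine ⟨c, ?_⟩
      have h2 := congrArg Subtype.val hc
      simp only [Submodule.coe_smul] at h2
      rw [← map_smul, h2, LinearEquiv.symm_apply_apply]
  constructor
  · intro h0
    rw [fld, smul_eq_zero] at h0
    rcases h0 with h0 | h0
    · exact hnr h0
    · apply hcrs
      have := congrArg (crv V).symm h0
      rwa [LinearEquiv.symm_apply_apply, map_zero] at this
  · intro y hy
    rw [fderiv_gm_eq_zero] at hy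
    obtain ⟨r, hr⟩ := crs_span e _ hcrs ((crv V).symm y)
      (fun j => rows_of_mem p H q x₁ x₂ x₃ hn b hb1 y hy j)
    refine ⟨r / (nr x₁ x₂ x₃ q ⬝ᵥ nr x₁ x₂ x₃ q), ?_⟩
    rw [fld, smul_smul, div_mul_cancel₀ _ hnr, ← map_smul, ← hr, LinearEquiv.apply_symm_apply]

theorem curv (hODE : T_ODE) (hODU : T_ODU) (hRANK : T_RANK) (hIM : T_IM) (hGP : T_GP) :
    T_CURV := by
  intro V _ H p x₁ x₂ x₃ hcard hp h12 h13 h23 hH h7
  have hn : (p x₂ - p x₁) ⨯₃ (p x₃ - p x₁) ≠ 0 :=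
    (hGP V p hp).2.1 x₁ x₂ x₃ h12.ne h13.ne h23.ne
  have hnn : ((p x₂ - p x₁) ⨯₃ (p x₃ - p x₁)) ⬝ᵥ ((p x₂ - p x₁) ⨯₃ (p x₃ - p x₁)) ≠ 0 :=
    fun h0 => hn (dotProduct_self_eq_zero.mp h0)
  have hPp : finrank ℝ (Pn H p x₁ x₂ x₃) = 1 := by
    have := pindim H p x₁ x₂ x₃ h12 h13 h23 hn
    omega
  obtain ⟨b, hb1, hb2, hb3, hb4⟩ := exists_b (fr_frame p x₁ x₂ x₃ hn) H p x₁ x₂ x₃ hPp
  let e : Option b ≃ V × Fin 3 := Fintype.equivOfCardEq (by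
    rw [Fintype.card_option]; exact hb4)
  set f := fld e (fr p x₁ x₂ x₃) x₁ x₂ x₃ with hf
  have hfC : ContDiff ℝ 1 f := contDiff_fld e _ x₁ x₂ x₃
  have h0adj : ∀ u w, Tr x₁ x₂ x₃ u → Tr x₁ x₂ x₃ w → u ≠ w → (H0 b x₁ x₂ x₃).Adj u w :=
    fun u w hu hw hne => ⟨hne, Or.inr ⟨hu, hw⟩⟩
  have hA12 := h0adj x₁ x₂ (Or.inl rfl) (Or.inr (Or.inl rfl)) h12.ne
  have hA13 := h0adj x₁ x₃ (Or.inl rfl) (Or.inr (Or.inr rfl)) h13.ne
  have hA23 := h0adj x₂ x₃ (Or.inr (Or.inl rfl)) (Or.inr (Or.inr rfl)) h23.ne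
  have hfib : ∀ q, gm H x₁ x₂ x₃ q = gm H x₁ x₂ x₃ p →
      f q ≠ 0 ∧ ∀ y, fderiv ℝ (gm H x₁ x₂ x₃) q y = 0 → ∃ r : ℝ, y = r • f q := by
    intro q hq
    apply fld_fibre p H x₁ x₂ x₃ hn b hb1 hb2 e q hq
    rw [gm_eq_iff] at hq
    have hE : Eqv (H0 b x₁ x₂ x₃) p q := fun u w huw =>
      hq.1 u w (H0_le H x₁ x₂ x₃ h12 h13 h23 b hb1 u w huw)
    have h1 := (hRANK V (H0 b x₁ x₂ x₃) p q hp hE).2
    have h2 := pindim (H0 b x₁ x₂ x₃) p x₁ x₂ x₃ hA12 hA13 hA23 hn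
    have h3 := pindim (H0 b x₁ x₂ x₃) q x₁ x₂ x₃ hA12 hA13 hA23 (by
      rw [hq.2.1, hq.2.2.1, hq.2.2.2]; exact hn)
    rw [hb3, hPp] at h2
    omega
  obtain ⟨γ, hγ0, hγ, hγg, T, hT, hper⟩ := hODE (V → Vec) ((V × V → ℝ) × (V → Vec)) f
    (gm H x₁ x₂ x₃) p hfC (contDiff_gm H x₁ x₂ x₃)
    (fun q => fld_tangent p H x₁ x₂ x₃ hn h12 h13 h23 b hb1 e q (by
      rw [← h7]; exact hIM V H p q hp))
    (compact_fibre H x₁ x₂ x₃ p hH) hfib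
  refine ⟨γ, fun t => f (γ t), hγ0, hγ, fun t => (hfib _ (hγg t)).1, ?_, ?_, ⟨T, hT, hper⟩, ?_, ?_⟩
  · intro t
    exact ((gm_eq_iff H x₁ x₂ x₃ p (γ t)).mp (hγg t)).1
  · intro t
    exact ((gm_eq_iff H x₁ x₂ x₃ p (γ t)).mp (hγg t)).2
  · intro t₀ ht₀ t
    have := hODU (V → Vec) f (fun t => γ (t₀ + t)) γ 0 hfC
      (fun t => (hγ (t₀ + t)).comp_const_add _ _) hγ (by simp only [add_zero]; rw [ht₀, hγ0])
    exact congrFun this t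
  · intro t₀ ht₀
    obtain ⟨ε, hε, hrefl⟩ := fld_refl p x₁ x₂ x₃ hn e
    have hsg : ∀ t, HasDerivAt (fun t => sg p x₁ x₂ x₃ (γ t))
        (Lr ((p x₂ - p x₁) ⨯₃ (p x₃ - p x₁)) (f (γ t))) t := by
      intro t
      have h1 : (fun t => sg p x₁ x₂ x₃ (γ t)) = fun t =>
          (LinearMap.toContinuousLinearMap (Lr ((p x₂ - p x₁) ⨯₃ (p x₃ - p x₁)))) (γ t) +
          fun _ => (2 * (((p x₂ - p x₁) ⨯₃ (p x₃ - p x₁)) ⬝ᵥ p x₁) /
            (((p x₂ - p x₁) ⨯₃ (p x₃ - p x₁)) ⬝ᵥ ((p x₂ - p x₁) ⨯₃ (p x₃ - p x₁)))) •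
              ((p x₂ - p x₁) ⨯₃ (p x₃ - p x₁)) := by
        funext t v
        rw [sg, refl3_eq]
        rfl
      rw [h1]
      have h2 := ((LinearMap.toContinuousLinearMap
        (Lr ((p x₂ - p x₁) ⨯₃ (p x₃ - p x₁)) : (V → Vec) →ₗ[ℝ] (V → Vec))).hasFDerivAt
          (x := γ t)).comp_hasDerivAt t (hγ t)
      exact h2.add_const _
    rcases hε with rfl | rfl
    · left
      intro t
      have := hODU (V → Vec) f (fun t => γ (t₀ + t)) (fun t => sg p x₁ x₂ x₃ (γ t)) 0 hfC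
        (fun t => (hγ (t₀ + t)).comp_const_add _ _)
        (fun t => by
          have h1 := hsg t
          rw [hf, hrefl, one_smul]
          exact h1)
        (by simp only [add_zero]; rw [ht₀, hγ0]; rfl)
      exact congrFun this t
    · right
      intro t
      have := hODU (V → Vec) (fun q => - f q) (fun t => γ (t₀ - t))
        (fun t => sg p x₁ x₂ x₃ (γ t)) 0 hfC.neg
        (fun t => by
          have h1 := (hγ (t₀ - t)).comp_const_sub t₀ t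
          exact h1)
        (fun t => by
          have h1 := hsg t
          rw [hf, hrefl, neg_smul, one_smul, neg_neg]
          exact h1)
        (by simp only [sub_zero]; rw [ht₀, hγ0]; rfl)
      exact congrFun this t

end

end Pool.Agent.H65.MG
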