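import Pool.Agent.H52.MG.Targets

/-!
# Module ODE: periodic orbits on compact one dimensional fibres
-/

set_option autoImplicit false
set_option linter.unusedSectionVars false

noncomputable section

open Set Filter Topology Metric
open scoped NNReal

namespace Pool.Agent.H65.MG

section unique

variable {E : Type} [NormedAddCommGroup E] [NormedSpace ℝ E] [FiniteDimensional ℝ E]

theorem unique_global (f : E → E) (γ₁ γ₂ : ℝ → E) (t₀ : ℝ) (hf : ContDiff ℝ 1 f)
    (h1 : ∀ t, HasDerivAt γ₁ (f (γ₁ t)) t) (h2 : ∀ t, HasDerivAt γ₂ (f (γ₂ t)) t)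
    (h0 : γ₁ t₀ = γ₂ t₀) : γ₁ = γ₂ := by
  have c1 : Continuous γ₁ := continuous_iff_continuousAt.mpr fun t => (h1 t).continuousAt
  have c2 : Continuous γ₂ := continuous_iff_continuousAt.mpr fun t => (h2 t).continuousAt
  have hcl : IsClosed {t | γ₁ t = γ₂ t} := isClosed_eq c1 c2
  have hop : IsOpen {t | γ₁ t = γ₂ t} := by
    rw [isOpen_iff_mem_nhds]
    intro t ht
    obtain ⟨K, s, hs, hl⟩ := (hf.contDiffAt (x := γ₁ t)).exists_lipschitzOnWith
    have e : γ₁ =ᶠ[𝓝 t] γ₂ := by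
      refine ODE_solution_unique_of_eventually (v := fun _ => f) (s := fun _ => s) (K := K)
        (Eventually.of_forall fun _ => hl) ?_ ?_ ht
      · filter_upwards [c1.continuousAt.preimage_mem_nhds hs] with u hu
        exact ⟨h1 u, hu⟩
      · have hs' : s ∈ 𝓝 (γ₂ t) := by
          have : γ₁ t = γ₂ t := ht
          rw [← this]; exact hs
        filter_upwards [c2.continuousAt.preimage_mem_nhds hs'] with u hu
        exact ⟨h2 u, hu⟩
    exact e
  have huniv : {t | γ₁ t = γ₂ t} = univ :=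
    IsClopen.eq_univ (⟨hcl, hop⟩ : IsClopen {t | γ₁ t = γ₂ t}) ⟨t₀, h0⟩
  funext t
  have : t ∈ {t | γ₁ t = γ₂ t} := by rw [huniv]; trivial
  exact this

end unique

section exist

variable {E : Type} [NormedAddCommGroup E] [NormedSpace ℝ E] [FiniteDimensional ℝ E]

/-- bounded globally Lipschitz fields have global integral curves -/
theorem exists_global (v : E → E) (K : ℝ≥0) (hv : LipschitzWith K v) (C : ℝ)
    (hC : ∀ x, ‖v x‖ ≤ C) (p : E) :
    ∃ γ : ℝ → E, γ 0 = p ∧ ∀ t, HasDerivAt γ (v (γ t)) t := by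
  have : CompleteSpace E := FiniteDimensional.complete ℝ E
  have hC0 : 0 ≤ C := (norm_nonneg _).trans (hC 0)
  have key : ∀ T : ℝ, 0 < T → ∃ α : ℝ → E, α 0 = p ∧
      ∀ t ∈ Ioo (-T) T, HasDerivAt α (v (α t)) t := by
    intro T hT
    have hpl : IsPicardLindelof (fun _ => v) (tmin := -T) (tmax := T)
        ⟨0, by constructor <;> linarith⟩ p (⟨C * T, by positivity⟩ : ℝ≥0) 0
        (⟨C, hC0⟩ : ℝ≥0) K := by
      apply IsPicardLindelof.of_time_independent
      · intro x _; exact hC x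
      · exact hv.lipschitzOnWith
      · have e : max (T - ((⟨0, by constructor <;> linarith⟩ : Icc (-T) T) : ℝ))
            (((⟨0, by constructor <;> linarith⟩ : Icc (-T) T) : ℝ) - (-T)) = T := by
          simp
        rw [e]
        simp only [NNReal.coe_zero, sub_zero]
        exact le_rfl
    obtain ⟨α, hα0, hα⟩ := hpl.exists_eq_forall_mem_Icc_hasDerivWithinAt₀
    refine ⟨α, hα0, fun t ht => ?_⟩
    exact (hα t (Ioo_subset_Icc_self ht)).hasDerivAt (Icc_mem_nhds ht.1 ht.2)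
  choose! α hα0 hα using key
  have agree : ∀ T T' : ℝ, 0 < T → T ≤ T' → EqOn (α T) (α T') (Ioo (-T) T) := by
    intro T T' hT hTT
    refine ODE_solution_unique_of_mem_Ioo (v := fun _ => v) (s := fun _ => univ) (K := K)
      (t₀ := 0) (fun _ _ => hv.lipschitzOnWith) ⟨by linarith, hT⟩ ?_ ?_ ?_
    · intro t ht
      exact ⟨hα T hT t ht, trivial⟩
    · intro t ht
      exact ⟨hα T' (by linarith) t ⟨by linarith [ht.1], by linarith [ht.2]⟩, trivial⟩
    · rw [hα0 T hT, hα0 T' (by linarith)]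
  refine ⟨fun t => α (|t| + 1) t, ?_, ?_⟩
  · simp only [abs_zero, zero_add]
    exact hα0 1 one_pos
  · intro t
    have hpos : 0 < |t| + 2 := by positivity
    have hmem : t ∈ Ioo (-(|t| + 2)) (|t| + 2) := by
      constructor
      · linarith [neg_abs_le t]
      · linarith [le_abs_self t]
    have heq : (fun s => α (|s| + 1) s) =ᶠ[𝓝 t] α (|t| + 2) := by
      have h1 : ∀ᶠ s in 𝓝 t, |s| < |t| + 1 :=
        (continuous_abs.tendsto t).eventually (gt_mem_nhds (by linarith))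
      filter_upwards [h1] with s hs
      apply agree (|s| + 1) (|t| + 2) (by positivity) (by linarith)
      constructor
      · linarith [neg_abs_le s]
      · linarith [le_abs_self s]
    have h2 := hα (|t| + 2) hpos t hmem
    have h3 : α (|t| + 1) t = α (|t| + 2) t := heq.self_of_nhds
    rw [← h3] at h2
    exact h2.congr_of_eventuallyEq heq

/-- the scalar bump function which is one on a compact set -/
theorem exists_cut (K : Set E) (hK : IsCompact K) : ∃ χ : E → ℝ, ContDiff ℝ 1 χ ∧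
    HasCompactSupport χ ∧ ∀ x ∈ K, χ x = 1 := by
  obtain ⟨R, hR⟩ := hK.isBounded.subset_closedBall (0 : E)
  let b : ContDiffBump (0 : E) := ⟨|R| + 1, |R| + 2, by positivity, by linarith⟩
  refine ⟨b, b.contDiff, b.hasCompactSupport, fun x hx => b.one_of_mem_closedBall ?_⟩
  have := hR hx
  rw [mem_closedBall] at this ⊢
  exact this.trans ((le_abs_self R).trans (by simp [b]))

end exist

section main

variable {E F : Type} [NormedAddCommGroup E] [NormedSpace ℝ E] [FiniteDimensional ℝ E]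
  [NormedAddCommGroup F] [NormedSpace ℝ F] [FiniteDimensional ℝ F]

theorem exists_global_fibre (f : E → E) (g : E → F) (c : F) (hf : ContDiff ℝ 1 f)
    (hg : ContDiff ℝ 1 g) (h0 : ∀ x, fderiv ℝ g x (f x) = 0) (hK : IsCompact {x | g x = c})
    (p : E) (hp : g p = c) :
    ∃ γ : ℝ → E, γ 0 = p ∧ (∀ t, HasDerivAt γ (f (γ t)) t) ∧ ∀ t, g (γ t) = c := by
  obtain ⟨χ, hχ, hχc, hχ1⟩ := exists_cut _ hK
  have hv : ContDiff ℝ 1 (fun x => χ x • f x) := hχ.smul hf
  have hvc : HasCompactSupport (fun x => χ x • f x) := hχc.smul_right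
  obtain ⟨L, hL⟩ : ∃ L, LipschitzWith L (fun x => χ x • f x) :=
    ContDiff.lipschitzWith_of_hasCompactSupport hvc hv (by simp)
  obtain ⟨C, hC⟩ := hv.continuous.bounded_above_of_compact_support hvc
  obtain ⟨γ, hγ0, hγ⟩ := exists_global _ L hL C hC p
  have hgd : ∀ t, HasDerivAt (fun t => g (γ t)) 0 t := by
    intro t
    have h1 : HasFDerivAt g (fderiv ℝ g (γ t)) (γ t) :=
      (hg.differentiable (by simp)).differentiableAt.hasFDerivAt
    have h2 := h1.comp_hasDerivAt t (hγ t)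
    rw [map_smul, h0, smul_zero] at h2
    exact h2
  have hconst : ∀ t, g (γ t) = c := by
    intro t
    have h3 : ∀ x y : ℝ, g (γ x) = g (γ y) := by
      apply is_const_of_deriv_eq_zero
      · intro t; exact (hgd t).differentiableAt
      · intro t; exact (hgd t).deriv
    rw [h3 t 0, hγ0, hp]
  refine ⟨γ, hγ0, fun t => ?_, hconst⟩
  have := hγ t
  rw [hχ1 (γ t) (hconst t), one_smul] at this
  exact this

/-- injective strict derivative implies local injectivity -/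
theorem locally_inj {G : Type} [NormedAddCommGroup G] [NormedSpace ℝ G] [FiniteDimensional ℝ G]
    (Ψ : E → G) (x : E) (Ψ' : E →L[ℝ] G) (h : HasStrictFDerivAt Ψ Ψ' x)
    (hi : Function.Injective Ψ') : ∃ W ∈ 𝓝 x, InjOn Ψ W := by
  have : CompleteSpace E := FiniteDimensional.complete ℝ E
  obtain ⟨B, hB⟩ := (Ψ' : E →ₗ[ℝ] G).exists_leftInverse_of_injective
    (LinearMap.ker_eq_bot.mpr hi)
  let B' : G →L[ℝ] E := LinearMap.toContinuousLinearMap B
  have h1 : HasStrictFDerivAt (fun y => B' (Ψ y)) (B'.comp Ψ') x :=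
    B'.hasStrictFDerivAt.comp x h
  have h2 : B'.comp Ψ' = ((ContinuousLinearEquiv.refl ℝ E : E ≃L[ℝ] E) : E →L[ℝ] E) := by
    ext y
    have := LinearMap.congr_fun hB y
    simpa [B'] using this
  rw [h2] at h1
  refine ⟨(h1.toOpenPartialHomeomorph _).source,
    (h1.toOpenPartialHomeomorph _).open_source.mem_nhds h1.mem_toOpenPartialHomeomorph_source, ?_⟩
  intro a ha b hb hab
  apply (h1.toOpenPartialHomeomorph _).injOn ha hb
  simp only [HasStrictFDerivAt.toOpenPartialHomeomorph_coe]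
  rw [hab]

theorem local_structure (f : E → E) (g : E → F) (c : F) (hf : ContDiff ℝ 1 f)
    (hg : ContDiff ℝ 1 g) (x₀ : E) (hx₀ : f x₀ ≠ 0)
    (hker : ∀ y, fderiv ℝ g x₀ y = 0 → ∃ r : ℝ, y = r • f x₀)
    (φ : ℝ → E) (hφ0 : φ 0 = x₀) (hφ : ∀ t, HasDerivAt φ (f (φ t)) t) (hφg : ∀ t, g (φ t) = c)
    (δ : ℝ) (hδ : 0 < δ) :
    ∀ᶠ x in 𝓝 x₀, g x = c → ∃ s : ℝ, |s| < δ ∧ φ s = x := by
  obtain ⟨l, hl⟩ := SeparatingDual.exists_eq_one (R := ℝ) hx₀
  have hgs : HasStrictFDerivAt g (fderiv ℝ g x₀) x₀ :=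
    hg.contDiffAt.hasStrictFDerivAt (by simp)
  have hΨ : HasStrictFDerivAt (fun x => (g x, l x)) ((fderiv ℝ g x₀).prod l) x₀ :=
    hgs.prodMk l.hasStrictFDerivAt
  obtain ⟨W, hW, hinj⟩ := locally_inj (fun x => (g x, l x)) x₀ _ hΨ (by
    rw [injective_iff_map_eq_zero]
    intro y hy
    rw [ContinuousLinearMap.prod_apply, Prod.mk_eq_zero] at hy
    obtain ⟨r, rfl⟩ := hker y hy.1
    have h2 := hy.2
    rw [map_smul, hl, smul_eq_mul, mul_one] at h2
    rw [h2, zero_smul])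
  have cφ : Continuous φ := continuous_iff_continuousAt.mpr fun t => (hφ t).continuousAt
  -- the scalar function
  have hcd : ContDiff ℝ 1 φ := by
    rw [contDiff_one_iff_deriv]
    refine ⟨fun t => (hφ t).differentiableAt, ?_⟩
    have : deriv φ = fun t => f (φ t) := funext fun t => (hφ t).deriv
    rw [this]
    exact hf.continuous.comp cφ
  have hs : HasStrictDerivAt (fun t => l (φ t)) 1 0 := by
    have h1 : ContDiffAt ℝ 1 (fun t => l (φ t)) 0 := (l.contDiff.comp hcd).contDiffAt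
    have h2 : HasDerivAt (fun t => l (φ t)) 1 0 := by
      have := l.hasFDerivAt.comp_hasDerivAt (0 : ℝ) (hφ 0)
      rw [hφ0, hl] at this
      exact this
    exact h1.hasStrictDerivAt' h2 (by simp)
  have hmap := hs.map_nhds_eq one_ne_zero
  have hN : {t | |t| < δ ∧ φ t ∈ W} ∈ 𝓝 (0 : ℝ) := by
    have h1 : ∀ᶠ t in 𝓝 (0 : ℝ), |t| < δ :=
      (continuous_abs.tendsto (0 : ℝ)).eventually (gt_mem_nhds (by simpa using hδ))
    have h2 : ∀ᶠ t in 𝓝 (0 : ℝ), φ t ∈ W :=
      cφ.continuousAt.preimage_mem_nhds (by rw [hφ0]; exact hW)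
    exact h1.and h2
  have himg : (fun t => l (φ t)) '' {t | |t| < δ ∧ φ t ∈ W} ∈ 𝓝 (l x₀) := by
    have := image_mem_map (m := fun t => l (φ t)) hN
    rw [hmap, hφ0] at this
    exact this
  filter_upwards [hW, l.continuous.continuousAt.preimage_mem_nhds himg] with x hx hx2 hgx
  obtain ⟨s, ⟨hs1, hs2⟩, hs3⟩ := hx2
  refine ⟨s, hs1, ?_⟩
  apply hinj hs2 hx
  simp only [Prod.mk.injEq]
  exact ⟨by rw [hφg, hgx], hs3⟩

theorem ode_main (f : E → E) (g : E → F) (p : E) (hf : ContDiff ℝ 1 f) (hg : ContDiff ℝ 1 g)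
    (h0 : ∀ x, fderiv ℝ g x (f x) = 0) (hK : IsCompact {x | g x = g p})
    (h1 : ∀ x, g x = g p → f x ≠ 0 ∧ ∀ y, fderiv ℝ g x y = 0 → ∃ r : ℝ, y = r • f x) :
    ∃ γ : ℝ → E, γ 0 = p ∧ (∀ t, HasDerivAt γ (f (γ t)) t) ∧ (∀ t, g (γ t) = g p) ∧
      ∃ T : ℝ, 0 < T ∧ ∀ t, γ (t + T) = γ t := by
  obtain ⟨γ, hγ0, hγ, hγg⟩ := exists_global_fibre f g (g p) hf hg h0 hK p rfl
  refine ⟨γ, hγ0, hγ, hγg, ?_⟩
  obtain ⟨x₀, hx₀, k, hk, hlim⟩ := hK.tendsto_subseq (x := fun n : ℕ => γ n) (fun n => hγg n)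
  obtain ⟨φ, hφ0, hφ, hφg⟩ := exists_global_fibre f g (g p) hf hg h0 hK x₀ hx₀
  have hloc := local_structure f g (g p) hf hg x₀ (h1 x₀ hx₀).1 (h1 x₀ hx₀).2 φ hφ0 hφ hφg
    (1/4) (by norm_num)
  have hev := hlim.eventually hloc
  obtain ⟨N, hN⟩ := eventually_atTop.mp hev
  have key : ∀ n, N ≤ n → ∃ s : ℝ, |s| < 1/4 ∧ γ ((k n : ℝ) - s) = x₀ := by
    intro n hn
    obtain ⟨s, hs, hφs⟩ := hN n hn (hγg _)
    refine ⟨s, hs, ?_⟩
    have e : (fun t => γ (t + ((k n : ℝ) - s))) = φ := by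
      apply unique_global f _ _ s hf
      · intro t
        exact (hγ (t + ((k n : ℝ) - s))).comp_add_const _ _
      · exact hφ
      · rw [hφs]
        simp
    have := congrFun e 0
    simp only [zero_add] at this
    rw [this, hφ0]
  obtain ⟨s1, hs1, e1⟩ := key N le_rfl
  obtain ⟨s2, hs2, e2⟩ := key (N + 1) (by omega)
  have hlt : (k N : ℝ) + 1 ≤ k (N + 1) := by exact_mod_cast hk (Nat.lt_succ_self N)
  rw [abs_lt] at hs1 hs2
  refine ⟨((k (N+1) : ℝ) - s2) - ((k N : ℝ) - s1), by linarith [hs1.1, hs1.2, hs2.1, hs2.2], ?_⟩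
  intro t
  have e : (fun t => γ (t + (((k (N+1) : ℝ) - s2) - ((k N : ℝ) - s1)))) = γ := by
    apply unique_global f _ _ ((k N : ℝ) - s1) hf
    · intro t
      exact (hγ _).comp_add_const _ _
    · exact hγ
    · rw [e1, ← e2]
      congr 1
      ring
  exact congrFun e t

end main

open Pool.Agent.H52.MG

theorem ode : T_ODE := by
  intro E F _ _ _ _ _ _ f g p hf hg h0 hK h1
  exact ode_main f g p hf hg h0 hK h1

theorem odu : T_ODU := by
  intro E _ _ _ f γ₁ γ₂ t₀ hf h1 h2 h0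
  exact unique_global f γ₁ γ₂ t₀ hf h1 h2 h0

end Pool.Agent.H65.MG
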