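import Pool.Agent.H52.MG.Basic
import Pool.Agent.H52.MG.Targets

/-!
# Generalised cross product
-/

set_option autoImplicit false
set_option linter.unusedSectionVars false

noncomputable section

open Classical Module
open scoped Matrix

namespace Pool.Agent.H65.MG

variable {K B : Type} [Fintype K] [Fintype B]

/-- square matrix: the rows of `A` and a zero row -/
def sqm (e : Option B ≃ K) (A : B → K → ℝ) : Matrix (Option B) (Option B) ℝ :=
  Matrix.of fun j c => match j with
    | none => 0
    | some j => A j (e c)

/-- generalised cross product of the rows of `A` -/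
def crs (e : Option B ≃ K) (A : B → K → ℝ) : K → ℝ :=
  fun c => (sqm e A).adjugate (e.symm c) none

lemma sqm_some (e : Option B ≃ K) (A : B → K → ℝ) (j : B) (c : Option B) :
    sqm e A (some j) c = A j (e c) := rfl

lemma sqm_none (e : Option B ≃ K) (A : B → K → ℝ) (c : Option B) :
    sqm e A none c = 0 := rfl

lemma crs_ker (e : Option B ≃ K) (A : B → K → ℝ) (j : B) : ∑ c, A j c * crs e A c = 0 := by
  have h := congrFun (congrFun (Matrix.mul_adjugate (sqm e A)) (some j)) none
  rw [Matrix.mul_apply] at h
  simp only [Matrix.smul_apply, Matrix.one_apply, smul_eq_mul] at h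
  rw [if_neg (by simp), mul_zero] at h
  rw [← h, ← e.sum_comp]
  refine Finset.sum_congr rfl fun c _ => ?_
  rw [sqm_some, crs, e.symm_apply_apply]

lemma adj_updateRow (e : Option B ≃ K) (A : B → K → ℝ) (w : Option B → ℝ) (c : Option B) :
    ((sqm e A).updateRow none w).adjugate c none = crs e A (e c) := by
  rw [crs, e.symm_apply_apply, Matrix.adjugate_apply, Matrix.adjugate_apply,
    Matrix.updateRow_idem]

/-- the determinant with an additional row -/
lemma det_updateRow (e : Option B ≃ K) (A : B → K → ℝ) (w : K → ℝ) :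
    ((sqm e A).updateRow none (fun c => w (e c))).det = ∑ c, w c * crs e A c := by
  set M := (sqm e A).updateRow none (fun c => w (e c)) with hM
  have h := congrFun (congrFun (Matrix.mul_adjugate M) none) none
  rw [Matrix.mul_apply] at h
  simp only [Matrix.smul_apply, Matrix.one_apply, smul_eq_mul, if_true, mul_one] at h
  rw [← h, ← e.sum_comp]
  refine Finset.sum_congr rfl fun c _ => ?_
  rw [hM, adj_updateRow, Matrix.updateRow_self]

/-- if the determinant is zero there is a vector in the kernel -/
lemma exists_of_det_zero (e : Option B ≃ K) (A : B → K → ℝ) (w : K → ℝ)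
    (h : ∑ c, w c * crs e A c = 0) :
    ∃ x : K → ℝ, x ≠ 0 ∧ (∀ j, ∑ c, A j c * x c = 0) ∧ ∑ c, w c * x c = 0 := by
  rw [← det_updateRow] at h
  obtain ⟨v, hv, hv0⟩ := Matrix.exists_mulVec_eq_zero_iff.mpr h
  refine ⟨fun c => v (e.symm c), ?_, ?_, ?_⟩
  · intro h0
    apply hv
    funext c
    have := congrFun h0 (e c)
    simpa using this
  · intro j
    have h1 := congrFun hv0 (some j)
    rw [Matrix.mulVec, dotProduct, Pi.zero_apply] at h1
    rw [← e.sum_comp, ← h1]
    refine Finset.sum_congr rfl fun c _ => ?_
    rw [Matrix.updateRow_ne (by simp), sqm_some]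
    simp only [e.symm_apply_apply]
  · have h1 := congrFun hv0 none
    rw [Matrix.mulVec, dotProduct, Pi.zero_apply] at h1
    rw [← e.sum_comp, ← h1]
    refine Finset.sum_congr rfl fun c _ => ?_
    rw [Matrix.updateRow_self]
    simp only [e.symm_apply_apply]

lemma no_of_det_ne (e : Option B ≃ K) (A : B → K → ℝ) (w : K → ℝ)
    (h : ∑ c, w c * crs e A c ≠ 0) (x : K → ℝ) (hx : ∀ j, ∑ c, A j c * x c = 0)
    (hw : ∑ c, w c * x c = 0) : x = 0 := by
  by_contra hne
  apply h
  rw [← det_updateRow]
  apply Matrix.exists_mulVec_eq_zero_iff.mp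
  refine ⟨fun c => x (e c), ?_, ?_⟩
  · intro h0
    apply hne
    funext c
    have := congrFun h0 (e.symm c)
    simpa using this
  · funext j
    rw [Matrix.mulVec, dotProduct, Pi.zero_apply]
    cases j with
    | none =>
      rw [← hw, ← e.sum_comp]
      refine Finset.sum_congr rfl fun c _ => ?_
      rw [Matrix.updateRow_self]
    | some j =>
      rw [← hx j, ← e.sum_comp]
      refine Finset.sum_congr rfl fun c _ => ?_
      rw [Matrix.updateRow_ne (by simp), sqm_some]

/-- if the cross product is nonzero it spans the kernel -/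
lemma crs_span (e : Option B ≃ K) (A : B → K → ℝ) (h : crs e A ≠ 0) (x : K → ℝ)
    (hx : ∀ j, ∑ c, A j c * x c = 0) : ∃ r : ℝ, x = r • crs e A := by
  obtain ⟨c₀, hc₀⟩ := Function.ne_iff.mp h
  rw [Pi.zero_apply] at hc₀
  have hs : ∀ y : K → ℝ, ∑ c, (Pi.single c₀ (1:ℝ) : K → ℝ) c * y c = y c₀ := by
    intro y
    rw [Finset.sum_eq_single c₀]
    · simp
    · intro c _ hc
      rw [Pi.single_eq_of_ne hc, zero_mul]
    · simp
  refine ⟨x c₀ / crs e A c₀, ?_⟩
  rw [← sub_eq_zero]
  apply no_of_det_ne e A (Pi.single c₀ 1)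
  · rw [hs]; exact hc₀
  · intro j
    have h1 : ∑ c, A j c * (x - (x c₀ / crs e A c₀) • crs e A) c =
        (∑ c, A j c * x c) - (x c₀ / crs e A c₀) * ∑ c, A j c * crs e A c := by
      rw [Finset.mul_sum, ← Finset.sum_sub_distrib]
      refine Finset.sum_congr rfl fun c _ => ?_
      simp only [Pi.sub_apply, Pi.smul_apply, smul_eq_mul]
      ring
    rw [h1, hx, crs_ker, mul_zero, sub_zero]
  · rw [hs]
    simp only [Pi.sub_apply, Pi.smul_apply, smul_eq_mul]
    field_simp
    ring

/-- if the kernel is spanned by one vector then the cross product is nonzero -/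
lemma crs_ne_zero (e : Option B ≃ K) (A : B → K → ℝ) (m : K → ℝ) (hm : m ≠ 0)
    (h : ∀ x : K → ℝ, (∀ j, ∑ c, A j c * x c = 0) → ∃ r : ℝ, x = r • m) : crs e A ≠ 0 := by
  intro h0
  obtain ⟨x, hx, hx1, hx2⟩ := exists_of_det_zero e A m (by rw [h0]; simp)
  obtain ⟨r, rfl⟩ := h x hx1
  have h2 : r * ∑ c, m c * m c = 0 := by
    rw [Finset.mul_sum, ← hx2]
    refine Finset.sum_congr rfl fun c _ => ?_
    simp only [Pi.smul_apply, smul_eq_mul]
    ring
  rcases mul_eq_zero.mp h2 with h3 | h3
  · apply hx; rw [h3, zero_smul]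
  · apply hm
    funext c
    have := (Finset.sum_eq_zero_iff_of_nonneg (fun c _ => mul_self_nonneg (m c))).mp h3 c
      (Finset.mem_univ _)
    exact mul_self_eq_zero.mp this

/-- behaviour under an involution: `A' (R x) = D (A x)` -/
lemma crs_symm (e : Option B ≃ K) (R : Matrix K K ℝ) (hR : R * R = 1) (D : B → ℝ)
    (hD : ∀ j, D j = 1 ∨ D j = -1) :
    ∃ ε : ℝ, (ε = 1 ∨ ε = -1) ∧ ∀ A A' : B → K → ℝ,
      (∀ j d, ∑ c, A' j c * R c d = D j * A j d) → crs e A' = ε • R.mulVec (crs e A) := by
  have hdet : R.det = 1 ∨ R.det = -1 := by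
    have h1 : R.det * R.det = 1 := by rw [← Matrix.det_mul, hR, Matrix.det_one]
    exact mul_self_eq_one_iff.mp h1
  have hprod : (∏ j, D j) = 1 ∨ (∏ j, D j) = -1 := by
    have h1 : (∏ j, D j) * (∏ j, D j) = 1 := by
      rw [← Finset.prod_mul_distrib]
      apply Finset.prod_eq_one
      intro j _
      rcases hD j with h | h <;> rw [h] <;> norm_num
    exact mul_self_eq_one_iff.mp h1
  refine ⟨R.det * ∏ j, D j, ?_, ?_⟩
  · rcases hdet with h1 | h1 <;> rcases hprod with h2 | h2 <;> rw [h1, h2] <;> norm_num
  · intro A A' h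
    set R' : Matrix (Option B) (Option B) ℝ := R.submatrix e e with hR'
    set Dh : Option B → ℝ := fun j => match j with
      | none => 1
      | some j => D j with hDh
    have hmul : sqm e A' * R' = Matrix.diagonal Dh * sqm e A := by
      ext j d
      rw [Matrix.mul_apply, Matrix.diagonal_mul]
      cases j with
      | none =>
        rw [sqm_none, mul_zero]
        apply Finset.sum_eq_zero
        intro c _
        rw [sqm_none, zero_mul]
      | some j =>
        rw [sqm_some, ← h j (e d), ← e.sum_comp]
        refine Finset.sum_congr rfl fun c _ => ?_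
        rw [sqm_some, hR', Matrix.submatrix_apply]
    have hadj := congrArg Matrix.adjugate hmul
    rw [Matrix.adjugate_mul_distrib, Matrix.adjugate_mul_distrib] at hadj
    have h2 : R' * (R'.adjugate * (sqm e A').adjugate) =
        R' * ((sqm e A).adjugate * (Matrix.diagonal Dh).adjugate) := by rw [hadj]
    rw [← Matrix.mul_assoc, Matrix.mul_adjugate, Matrix.smul_mul, Matrix.one_mul] at h2
    have hdR : R'.det = R.det := by rw [hR', Matrix.det_submatrix_equiv_self]
    rw [hdR] at h2
    have h3 : ∀ c, R.det * crs e A' c = (∏ j, D j) * R.mulVec (crs e A) c := by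
      intro c
      have h4 := congrFun (congrFun h2 (e.symm c)) none
      rw [Matrix.smul_apply, smul_eq_mul] at h4
      have h5 : crs e A' c = (sqm e A').adjugate (e.symm c) none := rfl
      rw [h5, h4, Matrix.mul_apply, Matrix.mulVec, dotProduct, Finset.mul_sum, ← e.sum_comp]
      refine Finset.sum_congr rfl fun d _ => ?_
      rw [hR', Matrix.submatrix_apply, e.apply_symm_apply, Matrix.mul_apply,
        Matrix.adjugate_diagonal]
      rw [Finset.sum_eq_single none]
      · rw [Matrix.diagonal_apply_eq, crs, e.symm_apply_apply]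
        have h6 : ∏ i ∈ Finset.univ.erase (none : Option B), Dh i = ∏ j, D j := by
          have h7 : (Finset.univ.erase (none : Option B)) = Finset.univ.map
              Function.Embedding.some := by
            ext x
            cases x <;> simp
          rw [h7, Finset.prod_map]
          rfl
        rw [h6]
        ring
      · intro x _ hx
        rw [Matrix.diagonal_apply_ne _ hx, mul_zero]
      · simp
    funext c
    have h4 := h3 c
    rw [Pi.smul_apply, smul_eq_mul, mul_assoc, ← h4]
    have h5 : R.det * R.det = 1 := by rcases hdet with h | h <;> rw [h] <;> norm_num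
    rw [← mul_assoc, h5, one_mul]

/-- smoothness of the cross product -/
lemma contDiff_crs {E : Type} [NormedAddCommGroup E] [NormedSpace ℝ E] (e : Option B ≃ K)
    (A : E → B → K → ℝ) (hA : ∀ j c, ContDiff ℝ 1 (fun q => A q j c)) (c : K) :
    ContDiff ℝ 1 (fun q => crs e (A q) c) := by
  have h1 : ∀ i j, ContDiff ℝ 1 (fun q => ((sqm e (A q)).updateRow none
      (Pi.single (e.symm c) 1)) i j) := by
    intro i j
    cases i with
    | none =>
      simp only [Matrix.updateRow_self]
      exact contDiff_const
    | some i =>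
      have : (fun q => ((sqm e (A q)).updateRow none (Pi.single (e.symm c) 1)) (some i) j) =
          fun q => A q i (e j) := by
        funext q
        rw [Matrix.updateRow_ne (by simp), sqm_some]
      rw [this]
      exact hA i (e j)
  have h2 : (fun q => crs e (A q) c) = fun q => ∑ σ : Equiv.Perm (Option B),
      (((Equiv.Perm.sign σ : ℤ) : ℝ)) * ∏ i, ((sqm e (A q)).updateRow none
      (Pi.single (e.symm c) 1)) (σ i) i := by
    funext q
    rw [crs, Matrix.adjugate_apply, Matrix.det_apply']
  rw [h2]
  apply ContDiff.sum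
  intro σ _
  apply ContDiff.mul contDiff_const
  apply contDiff_prod
  intro i _
  exact h1 _ _

end Pool.Agent.H65.MG
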