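import Pool.Agent.H65.MG.Rows

/-!
# The constraint map and the vector field
-/

set_option autoImplicit false
set_option linter.unusedSectionVars false

noncomputable section

open Classical Module
open scoped Matrix
open Pool.Agent.H52.MG

namespace Pool.Agent.H65.MG

section
variable {V : Type} [Fintype V]

/-- constraint map: squared lengths of the bars and positions of the triangle -/
def gm (H : SimpleGraph V) (x₁ x₂ x₃ : V) (q : V → Vec) : (V × V → ℝ) × (V → Vec) :=
  (fun x => if H.Adj x.1 x.2 then dsq (q x.1) (q x.2) else 0,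
    fun v => if Tr x₁ x₂ x₃ v then q v else 0)

lemma gm_eq_iff (H : SimpleGraph V) (x₁ x₂ x₃ : V) (p q : V → Vec) :
    gm H x₁ x₂ x₃ q = gm H x₁ x₂ x₃ p ↔ Eqv H p q ∧ q x₁ = p x₁ ∧ q x₂ = p x₂ ∧ q x₃ = p x₃ := by
  constructor
  · intro h
    have h1 := congrArg Prod.fst h
    have h2 := congrArg Prod.snd h
    refine ⟨?_, ?_, ?_, ?_⟩
    · intro u w huw
      have := congrFun h1 (u, w)
      simpa only [gm, if_pos huw] using this
    · have := congrFun h2 x₁
      simpa [gm, Tr] using this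
    · have := congrFun h2 x₂
      simpa [gm, Tr] using this
    · have := congrFun h2 x₃
      simpa [gm, Tr] using this
  · rintro ⟨h, h1, h2, h3⟩
    refine Prod.ext ?_ ?_
    · funext x
      simp only [gm]
      by_cases hx : H.Adj x.1 x.2
      · rw [if_pos hx, if_pos hx, h _ _ hx]
      · rw [if_neg hx, if_neg hx]
    · funext v
      simp only [gm]
      by_cases hv : Tr x₁ x₂ x₃ v
      · rw [if_pos hv, if_pos hv]
        rcases hv with rfl | rfl | rfl <;> assumption
      · rw [if_neg hv, if_neg hv]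

/-- coordinate functionals -/
def cf (v : V) (i : Fin 3) : (V → Vec) →L[ℝ] ℝ :=
  (ContinuousLinearMap.proj i : Vec →L[ℝ] ℝ).comp (ContinuousLinearMap.proj v)

lemma cf_apply (v : V) (i : Fin 3) (q : V → Vec) : cf v i q = q v i := rfl

def gm' (H : SimpleGraph V) (x₁ x₂ x₃ : V) (q : V → Vec) :
    (V → Vec) →L[ℝ] (V × V → ℝ) × (V → Vec) :=
  ContinuousLinearMap.prod
    (ContinuousLinearMap.pi fun x => if H.Adj x.1 x.2 then
      ∑ i : Fin 3, (2 * (q x.1 i - q x.2 i)) • (cf x.1 i - cf x.2 i) else 0)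
    (ContinuousLinearMap.pi fun v => if Tr x₁ x₂ x₃ v then ContinuousLinearMap.proj v else 0)

lemma hasFDerivAt_dsq (q : V → Vec) (u w : V) :
    HasFDerivAt (fun q : V → Vec => dsq (q u) (q w))
      (∑ i : Fin 3, (2 * (q u i - q w i)) • (cf u i - cf w i)) q := by
  have h1 : (fun q : V → Vec => dsq (q u) (q w)) =
      fun q => ∑ i : Fin 3, ((cf u i - cf w i) q) ^ 2 := by
    funext q
    rw [dsq, dotProduct]
    refine Finset.sum_congr rfl fun i _ => ?_
    simp only [_root_.sub_apply, cf_apply, Pi.sub_apply]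
    ring
  rw [h1]
  apply HasFDerivAt.fun_sum
  intro i _
  have h2 := ((cf u i - cf w i).hasFDerivAt (x := q)).pow 2
  refine h2.congr_fderiv ?_
  ext m
  simp [cf_apply]

lemma hasFDerivAt_gm (H : SimpleGraph V) (x₁ x₂ x₃ : V) (q : V → Vec) :
    HasFDerivAt (gm H x₁ x₂ x₃) (gm' H x₁ x₂ x₃ q) q := by
  apply HasFDerivAt.prodMk
  · rw [hasFDerivAt_pi']
    intro x
    by_cases hx : H.Adj x.1 x.2
    · have h1 := hasFDerivAt_dsq q x.1 x.2
      simp only [if_pos hx]
      refine h1.congr_fderiv ?_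
      ext m
      simp [hx]
    · simp only [if_neg hx]
      refine (hasFDerivAt_const (0 : ℝ) q).congr_fderiv ?_
      ext m
      simp [hx]
  · rw [hasFDerivAt_pi']
    intro v
    by_cases hv : Tr x₁ x₂ x₃ v
    · simp only [if_pos hv]
      refine ((ContinuousLinearMap.proj v : (V → Vec) →L[ℝ] Vec).hasFDerivAt).congr_fderiv ?_
      ext m
      simp [hv]
    · simp only [if_neg hv]
      refine (hasFDerivAt_const (0 : Vec) q).congr_fderiv ?_
      ext m
      simp [hv]

lemma contDiff_dsq (u w : V) : ContDiff ℝ 1 (fun q : V → Vec => dsq (q u) (q w)) := by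
  have h1 : (fun q : V → Vec => dsq (q u) (q w)) =
      fun q => ∑ i : Fin 3, ((cf u i - cf w i) q) ^ 2 := by
    funext q
    rw [dsq, dotProduct]
    refine Finset.sum_congr rfl fun i _ => ?_
    simp only [_root_.sub_apply, cf_apply, Pi.sub_apply]
    ring
  rw [h1]
  apply ContDiff.sum
  intro i _
  exact ((cf u i - cf w i).contDiff).pow 2

lemma contDiff_gm (H : SimpleGraph V) (x₁ x₂ x₃ : V) : ContDiff ℝ 1 (gm H x₁ x₂ x₃) := by
  apply ContDiff.prodMk
  · rw [contDiff_pi]
    intro x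
    by_cases hx : H.Adj x.1 x.2
    · simp only [if_pos hx]
      exact contDiff_dsq _ _
    · simp only [if_neg hx]
      exact contDiff_const
  · rw [contDiff_pi]
    intro v
    by_cases hv : Tr x₁ x₂ x₃ v
    · simp only [if_pos hv]
      exact (ContinuousLinearMap.proj v : (V → Vec) →L[ℝ] Vec).contDiff
    · simp only [if_neg hv]
      exact contDiff_const

lemma fderiv_gm_eq_zero (H : SimpleGraph V) (x₁ x₂ x₃ : V) (q m : V → Vec) :
    fderiv ℝ (gm H x₁ x₂ x₃) q m = 0 ↔ m ∈ Pn H q x₁ x₂ x₃ := by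
  rw [(hasFDerivAt_gm H x₁ x₂ x₃ q).fderiv]
  have hsum : ∀ u w : V, (∑ i : Fin 3, (2 * (q u i - q w i)) • (cf u i - cf w i)) m =
      2 * ((m u - m w) ⬝ᵥ (q u - q w)) := by
    intro u w
    rw [dotProduct, Finset.mul_sum, _root_.sum_apply]
    refine Finset.sum_congr rfl fun i _ => ?_
    simp only [_root_.smul_apply, _root_.sub_apply, cf_apply,
      Pi.sub_apply, smul_eq_mul]
    ring
  constructor
  · intro h
    have h1 := congrArg Prod.fst h
    have h2 := congrArg Prod.snd h
    refine ⟨?_, ?_, ?_, ?_⟩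
    · intro u w huw
      have h3 := congrFun h1 (u, w)
      simp only [gm', ContinuousLinearMap.prod_apply, ContinuousLinearMap.coe_pi', if_pos huw,
        Prod.fst_zero, Pi.zero_apply] at h3
      rw [hsum] at h3
      linarith
    · have := congrFun h2 x₁
      simpa [gm', Tr] using this
    · have := congrFun h2 x₂
      simpa [gm', Tr] using this
    · have := congrFun h2 x₃
      simpa [gm', Tr] using this
  · rintro ⟨h, h1, h2, h3⟩
    refine Prod.ext ?_ ?_
    · funext x
      simp only [gm', ContinuousLinearMap.prod_apply, ContinuousLinearMap.coe_pi',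
        Prod.fst_zero, Pi.zero_apply]
      by_cases hx : H.Adj x.1 x.2
      · rw [if_pos hx, hsum, h _ _ hx, mul_zero]
      · rw [if_neg hx, _root_.zero_apply]
    · funext v
      simp only [gm', ContinuousLinearMap.prod_apply, ContinuousLinearMap.coe_pi',
        Prod.snd_zero, Pi.zero_apply]
      by_cases hv : Tr x₁ x₂ x₃ v
      · rw [if_pos hv]
        rcases hv with rfl | rfl | rfl <;> assumption
      · rw [if_neg hv, _root_.zero_apply]

/-- normal vector of the triangle -/
def nr (x₁ x₂ x₃ : V) (q : V → Vec) : Vec := (q x₂ - q x₁) ⨯₃ (q x₃ - q x₁)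

/-- the vector field -/
def fld {b : Set (Ix V)} (e : Option b ≃ V × Fin 3) (a : Fin 3 → Vec) (x₁ x₂ x₃ : V)
    (q : V → Vec) : V → Vec :=
  (nr x₁ x₂ x₃ q ⬝ᵥ nr x₁ x₂ x₃ q) • crv V (crs e (fun j : b => row a q j))

lemma contDiff_fld {b : Set (Ix V)} (e : Option b ≃ V × Fin 3) (a : Fin 3 → Vec)
    (x₁ x₂ x₃ : V) : ContDiff ℝ 1 (fld e a x₁ x₂ x₃) := by
  rw [contDiff_pi]
  intro v
  rw [contDiff_pi]
  intro i
  have hq : ∀ (v : V) (i : Fin 3), ContDiff ℝ 1 (fun q : V → Vec => q v i) := fun v i =>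
    (cf v i).contDiff
  have h1 : ContDiff ℝ 1 (fun q : V → Vec => nr x₁ x₂ x₃ q ⬝ᵥ nr x₁ x₂ x₃ q) := by
    have : (fun q : V → Vec => nr x₁ x₂ x₃ q ⬝ᵥ nr x₁ x₂ x₃ q) = fun q =>
      ((q x₂ 1 - q x₁ 1) * (q x₃ 2 - q x₁ 2) - (q x₂ 2 - q x₁ 2) * (q x₃ 1 - q x₁ 1)) ^ 2 +
      ((q x₂ 2 - q x₁ 2) * (q x₃ 0 - q x₁ 0) - (q x₂ 0 - q x₁ 0) * (q x₃ 2 - q x₁ 2)) ^ 2 +
      ((q x₂ 0 - q x₁ 0) * (q x₃ 1 - q x₁ 1) - (q x₂ 1 - q x₁ 1) * (q x₃ 0 - q x₁ 0)) ^ 2 := by
      funext q
      rw [nr, cross_eq, dot3]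
      simp only [Matrix.cons_val, Pi.sub_apply]
      ring
    rw [this]
    have hs : ∀ (v w : V) (i : Fin 3), ContDiff ℝ 1 (fun q : V → Vec => q v i - q w i) :=
      fun v w i => (hq v i).sub (hq w i)
    refine ContDiff.add (ContDiff.add ?_ ?_) ?_
    · exact (((hs _ _ _).mul (hs _ _ _)).sub ((hs _ _ _).mul (hs _ _ _))).pow 2
    · exact (((hs _ _ _).mul (hs _ _ _)).sub ((hs _ _ _).mul (hs _ _ _))).pow 2
    · exact (((hs _ _ _).mul (hs _ _ _)).sub ((hs _ _ _).mul (hs _ _ _))).pow 2
  have h2 : ContDiff ℝ 1 (fun q : V → Vec => crs e (fun j : b => row a q j) (v, i)) := by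
    apply contDiff_crs
    intro j c
    rcases j with ⟨j, hj⟩
    cases j with
    | inl x =>
      simp only [row]
      have hs : ContDiff ℝ 1 (fun q : V → Vec => q x.1 c.2 - q x.2 c.2) := (hq _ _).sub (hq _ _)
      apply ContDiff.sub
      · by_cases h : c.1 = x.1
        · simp only [if_pos h]; exact hs
        · simp only [if_neg h]; exact contDiff_const
      · by_cases h : c.1 = x.2
        · simp only [if_pos h]; exact hs
        · simp only [if_neg h]; exact contDiff_const
    | inr x =>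
      simp only [row]
      exact contDiff_const
  have h3 : (fun q : V → Vec => fld e a x₁ x₂ x₃ q v i) = fun q =>
      (nr x₁ x₂ x₃ q ⬝ᵥ nr x₁ x₂ x₃ q) * crs e (fun j : b => row a q j) (v, i) := by
    funext q
    simp only [fld, Pi.smul_apply, smul_eq_mul, crv_apply]
  rw [h3]
  exact h1.mul h2

/-- boundedness and compactness of the fibre -/
lemma compact_fibre (H : SimpleGraph V) (x₁ x₂ x₃ : V) (p : V → Vec) (hH : H.Connected) :
    IsCompact {q | gm H x₁ x₂ x₃ q = gm H x₁ x₂ x₃ p} := by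
  apply Metric.isCompact_of_isClosed_isBounded
  · exact isClosed_eq (contDiff_gm H x₁ x₂ x₃).continuous continuous_const
  · have key : ∀ v, ∃ B : ℝ, ∀ q, gm H x₁ x₂ x₃ q = gm H x₁ x₂ x₃ p → ‖q v‖ ≤ B := by
      intro v
      have hr : Relation.ReflTransGen H.Adj x₁ v :=
        (SimpleGraph.reachable_iff_reflTransGen _ _).mp (hH.preconnected x₁ v)
      induction hr with
      | refl =>
        refine ⟨‖p x₁‖, fun q hq => ?_⟩
        rw [gm_eq_iff] at hq
        rw [hq.2.1]
      | @tail u w _ huw ih =>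
        obtain ⟨B, hB⟩ := ih
        refine ⟨B + Real.sqrt (dsq (p u) (p w)), fun q hq => ?_⟩
        have h1 := hB q hq
        rw [gm_eq_iff] at hq
        have h2 := hq.1 u w huw
        have h3 : ‖q u - q w‖ ≤ Real.sqrt (dsq (p u) (p w)) := by
          rw [pi_norm_le_iff_of_nonneg (Real.sqrt_nonneg _)]
          intro i
          rw [Real.norm_eq_abs]
          apply Real.abs_le_sqrt
          rw [← h2, dsq, dotProduct]
          have := Finset.single_le_sum (f := fun i => (q u - q w) i * (q u - q w) i)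
            (fun i _ => mul_self_nonneg _) (Finset.mem_univ i)
          rw [pow_two]
          exact this
        calc ‖q w‖ = ‖q u - (q u - q w)‖ := by congr 1; abel
          _ ≤ ‖q u‖ + ‖q u - q w‖ := norm_sub_le _ _
          _ ≤ _ := add_le_add h1 h3
    choose B hB using key
    rw [isBounded_iff_forall_norm_le]
    refine ⟨∑ v, |B v|, fun q hq => ?_⟩
    rw [pi_norm_le_iff_of_nonneg (Finset.sum_nonneg fun v _ => abs_nonneg _)]
    intro v
    exact ((hB v q hq).trans (le_abs_self _)).trans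
      (Finset.single_le_sum (f := fun v => |B v|) (fun v _ => abs_nonneg _) (Finset.mem_univ v))

end

end Pool.Agent.H65.MG
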