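import Pool.Agent.H52.MG.Basic
import Pool.Agent.H52.MG.Targets

/-!
# Pinned infinitesimal motions
-/

set_option autoImplicit false
set_option linter.unusedSectionVars false

noncomputable section

open Classical Module
open scoped Matrix
open Pool.Agent.H52.MG

namespace Pool.Agent.H65.MG

lemma exists_omega (a b d f : Vec) (hn : a ⨯₃ b ≠ 0) (h1 : d ⬝ᵥ a = 0) (h2 : f ⬝ᵥ b = 0)
    (h3 : d ⬝ᵥ b + f ⬝ᵥ a = 0) : ∃ ω : Vec, ω ⨯₃ a = d ∧ ω ⨯₃ b = f := by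
  have hnn : (a ⨯₃ b) ⬝ᵥ (a ⨯₃ b) ≠ 0 := fun h0 => hn (dotProduct_self_eq_zero.mp h0)
  set s := (a ⨯₃ b) ⬝ᵥ (a ⨯₃ b) with hs
  have hs' : s = (a 1 * b 2 - a 2 * b 1)^2 + (a 2 * b 0 - a 0 * b 2)^2 +
      (a 0 * b 1 - a 1 * b 0)^2 := by
    rw [hs, cross_eq, dot3]
    simp only [Matrix.cons_val]
    ring
  refine ⟨(1/s) • (((a ⨯₃ b) ⬝ᵥ f) • a - ((a ⨯₃ b) ⬝ᵥ d) • b + (d ⬝ᵥ b) • (a ⨯₃ b)), ?_, ?_⟩
  · have key : ∀ i, ((((a ⨯₃ b) ⬝ᵥ f) • a - ((a ⨯₃ b) ⬝ᵥ d) • b + (d ⬝ᵥ b) • (a ⨯₃ b)) ⨯₃ a) i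
        = s * d i := by
      rw [dot3] at h1
      intro i
      rw [hs']
      simp only [cross_eq, dot3]
      fin_cases i <;>
      simp only [Fin.zero_eta, Fin.mk_one, Fin.reduceFinMk, Matrix.cons_val, Pi.add_apply,
        Pi.sub_apply, Pi.smul_apply, smul_eq_mul]
      · linear_combination (-(b 1 * (a 0 * b 1 - a 1 * b 0) - b 2 * (a 2 * b 0 - a 0 * b 2))) * h1
      · linear_combination (-(b 2 * (a 1 * b 2 - a 2 * b 1) - b 0 * (a 0 * b 1 - a 1 * b 0))) * h1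
      · linear_combination (-(b 0 * (a 2 * b 0 - a 0 * b 2) - b 1 * (a 1 * b 2 - a 2 * b 1))) * h1
    funext i
    rw [map_smul, LinearMap.smul_apply, Pi.smul_apply, key i, smul_eq_mul, ← mul_assoc,
      one_div, inv_mul_cancel₀ hnn, one_mul]
  · have key : ∀ i, ((((a ⨯₃ b) ⬝ᵥ f) • a - ((a ⨯₃ b) ⬝ᵥ d) • b + (d ⬝ᵥ b) • (a ⨯₃ b)) ⨯₃ b) i
        = s * f i := by
      rw [dot3] at h2
      rw [dot3, dot3] at h3
      intro i
      rw [hs']
      simp only [cross_eq, dot3]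
      fin_cases i <;>
      simp only [Fin.zero_eta, Fin.mk_one, Fin.reduceFinMk, Matrix.cons_val, Pi.add_apply,
        Pi.sub_apply, Pi.smul_apply, smul_eq_mul]
      · linear_combination (((a 2 * b 0 - a 0 * b 2) * b 2 - (a 0 * b 1 - a 1 * b 0) * b 1)) * h3 - (((a 2 * b 0 - a 0 * b 2) * a 2 - (a 0 * b 1 - a 1 * b 0) * a 1)) * h2
      · linear_combination (((a 0 * b 1 - a 1 * b 0) * b 0 - (a 1 * b 2 - a 2 * b 1) * b 2)) * h3 - (((a 0 * b 1 - a 1 * b 0) * a 0 - (a 1 * b 2 - a 2 * b 1) * a 2)) * h2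
      · linear_combination (((a 1 * b 2 - a 2 * b 1) * b 1 - (a 2 * b 0 - a 0 * b 2) * b 0)) * h3 - (((a 1 * b 2 - a 2 * b 1) * a 1 - (a 2 * b 0 - a 0 * b 2) * a 0)) * h2
    funext i
    rw [map_smul, LinearMap.smul_apply, Pi.smul_apply, key i, smul_eq_mul, ← mul_assoc,
      one_div, inv_mul_cancel₀ hnn, one_mul]


section
variable {V : Type} [Fintype V]

/-- pinned infinitesimal motions -/
def Pn (H : SimpleGraph V) (q : V → Vec) (x₁ x₂ x₃ : V) : Submodule ℝ (V → Vec) where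
  carrier := {m | m ∈ infMot H q ∧ m x₁ = 0 ∧ m x₂ = 0 ∧ m x₃ = 0}
  add_mem' := by
    intro a b ha hb
    exact ⟨Submodule.add_mem _ ha.1 hb.1, by simp [ha.2.1, hb.2.1], by simp [ha.2.2.1, hb.2.2.1],
      by simp [ha.2.2.2, hb.2.2.2]⟩
  zero_mem' := ⟨Submodule.zero_mem _, rfl, rfl, rfl⟩
  smul_mem' := by
    intro r a ha
    exact ⟨Submodule.smul_mem _ _ ha.1, by simp [ha.2.1], by simp [ha.2.2.1],
      by simp [ha.2.2.2]⟩

lemma mem_infMot {H : SimpleGraph V} {q m : V → Vec} :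
    m ∈ infMot H q ↔ ∀ u w, H.Adj u w → (m u - m w) ⬝ᵥ (q u - q w) = 0 := Iff.rfl

lemma mem_Pn {H : SimpleGraph V} {q m : V → Vec} {x₁ x₂ x₃ : V} :
    m ∈ Pn H q x₁ x₂ x₃ ↔ m ∈ infMot H q ∧ m x₁ = 0 ∧ m x₂ = 0 ∧ m x₃ = 0 := Iff.rfl

lemma screw_mem (H : SimpleGraph V) (q : V → Vec) (S : Scr) :
    (fun v => ev S (q v)) ∈ infMot H q := by
  intro u w _
  simp only
  rw [ev_sub_ev, cross_eq, dot3]
  simp only [Matrix.cons_val, Pi.sub_apply]
  ring

lemma exists_screw (H : SimpleGraph V) (q m : V → Vec) (x₁ x₂ x₃ : V) (h12 : H.Adj x₁ x₂)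
    (h13 : H.Adj x₁ x₃) (h23 : H.Adj x₂ x₃) (hn : (q x₂ - q x₁) ⨯₃ (q x₃ - q x₁) ≠ 0)
    (hm : m ∈ infMot H q) :
    ∃ S : Scr, ev S (q x₁) = m x₁ ∧ ev S (q x₂) = m x₂ ∧ ev S (q x₃) = m x₃ := by
  have e12 := hm _ _ h12
  have e13 := hm _ _ h13
  have e23 := hm _ _ h23
  obtain ⟨ω, h1, h2⟩ := exists_omega (q x₂ - q x₁) (q x₃ - q x₁) (m x₂ - m x₁) (m x₃ - m x₁) hn
    (by
      rw [dot3] at e12 ⊢
      simp only [Pi.sub_apply] at e12 ⊢
      linear_combination e12)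
    (by
      rw [dot3] at e13 ⊢
      simp only [Pi.sub_apply] at e13 ⊢
      linear_combination e13)
    (by
      rw [dot3] at e12 e13 e23
      rw [dot3, dot3]
      simp only [Pi.sub_apply] at e12 e13 e23 ⊢
      linear_combination e12 + e13 - e23)
  refine ⟨(ω, m x₁ - ω ⨯₃ q x₁), ?_, ?_, ?_⟩
  · simp [ev]
  · have : ev (ω, m x₁ - ω ⨯₃ q x₁) (q x₂) = m x₁ + ω ⨯₃ (q x₂ - q x₁) := by
      simp only [ev, map_sub]; abel
    rw [this, h1]; abel
  · have : ev (ω, m x₁ - ω ⨯₃ q x₁) (q x₃) = m x₁ + ω ⨯₃ (q x₃ - q x₁) := by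
      simp only [ev, map_sub]; abel
    rw [this, h2]; abel

/-- the map `(pinned motion, screw) ↦ motion` -/
def addMap (H : SimpleGraph V) (q : V → Vec) (x₁ x₂ x₃ : V) :
    (Pn H q x₁ x₂ x₃ × Scr) →ₗ[ℝ] infMot H q where
  toFun x := ⟨(x.1 : V → Vec) + fun v => ev x.2 (q v),
    Submodule.add_mem _ x.1.2.1 (screw_mem H q x.2)⟩
  map_add' := by
    intro x y
    ext v i
    simp only [Prod.fst_add, Prod.snd_add, Submodule.coe_add, Pi.add_apply, ev_add]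
    ring
  map_smul' := by
    intro r x
    ext v i
    simp only [Prod.smul_fst, Prod.smul_snd, Submodule.coe_smul, Pi.add_apply, Pi.smul_apply,
      ev_smul, smul_eq_mul, RingHom.id_apply]
    ring

theorem pindim (H : SimpleGraph V) (q : V → Vec) (x₁ x₂ x₃ : V) (h12 : H.Adj x₁ x₂)
    (h13 : H.Adj x₁ x₃) (h23 : H.Adj x₂ x₃) (hn : (q x₂ - q x₁) ⨯₃ (q x₃ - q x₁) ≠ 0) :
    finrank ℝ (infMot H q) = finrank ℝ (Pn H q x₁ x₂ x₃) + 6 := by
  have hbij : Function.Bijective (addMap H q x₁ x₂ x₃) := by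
    constructor
    · rw [injective_iff_map_eq_zero]
      intro x hx
      have hx' : ∀ v, (x.1 : V → Vec) v + ev x.2 (q v) = 0 := by
        intro v
        have := congrArg (fun z : infMot H q => (z : V → Vec) v) hx
        exact this
      have h1 := hx' x₁
      have h2 := hx' x₂
      have h3 := hx' x₃
      rw [x.1.2.2.1, zero_add] at h1
      rw [x.1.2.2.2.1, zero_add] at h2
      rw [x.1.2.2.2.2, zero_add] at h3
      have hS := scr_three x.2 _ _ _ hn h1 h2 h3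
      have hm : x.1 = 0 := by
        ext v i
        have := congrFun (hx' v) i
        rw [hS, ev_zero, add_zero] at this
        exact this
      exact Prod.ext hm hS
    · intro m
      obtain ⟨S, h1, h2, h3⟩ := exists_screw H q m x₁ x₂ x₃ h12 h13 h23 hn m.2
      refine ⟨(⟨(m : V → Vec) - fun v => ev S (q v),
        Submodule.sub_mem _ m.2 (screw_mem H q S), ?_, ?_, ?_⟩, S), ?_⟩
      · simp only [Pi.sub_apply, h1, sub_self]
      · simp only [Pi.sub_apply, h2, sub_self]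
      · simp only [Pi.sub_apply, h3, sub_self]
      · ext v i
        simp [addMap]
  have := (LinearEquiv.ofBijective _ hbij).finrank_eq
  rw [← this, finrank_prod, finrank_scr]

end

end Pool.Agent.H65.MG
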