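import Pool.Agent.H65.MG.Cross
import Pool.Agent.H65.MG.Pin

/-!
# Rows of the rigidity matrix with pins; choice of a maximal independent set
-/

set_option autoImplicit false
set_option linter.unusedSectionVars false

noncomputable section

open Classical Module
open scoped Matrix
open Pool.Agent.H52.MG

namespace Pool.Agent.H65.MG

section
variable {V : Type} [Fintype V]

abbrev Ix (V : Type) : Type := (V × V) ⊕ (V × Fin 3)

/-- rows: bars and pins (with respect to the frame `a`) -/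
def row (a : Fin 3 → Vec) (q : V → Vec) : Ix V → (V × Fin 3) → ℝ
  | Sum.inl x => fun c => (if c.1 = x.1 then (q x.1 c.2 - q x.2 c.2) else 0) -
      (if c.1 = x.2 then (q x.1 c.2 - q x.2 c.2) else 0)
  | Sum.inr x => fun c => if c.1 = x.1 then a x.2 c.2 else 0

lemma sum_ite_fst (u : V) (g : V × Fin 3 → ℝ) :
    ∑ c : V × Fin 3, (if c.1 = u then g c else 0) = ∑ i : Fin 3, g (u, i) := by
  rw [Fintype.sum_prod_type, Finset.sum_eq_single u]
  · simp
  · intro v _ hv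
    simp [hv]
  · simp

lemma row_inl (a : Fin 3 → Vec) (q : V → Vec) (u w : V) (m : V → Vec) :
    ∑ c, row a q (Sum.inl (u, w)) c * m c.1 c.2 = (m u - m w) ⬝ᵥ (q u - q w) := by
  have h1 : ∀ c : V × Fin 3, row a q (Sum.inl (u, w)) c * m c.1 c.2 =
      (if c.1 = u then (q u c.2 - q w c.2) * m c.1 c.2 else 0) -
      (if c.1 = w then (q u c.2 - q w c.2) * m c.1 c.2 else 0) := by
    intro c
    simp only [row]
    split_ifs <;> ring
  rw [Finset.sum_congr rfl fun c _ => h1 c, Finset.sum_sub_distrib, sum_ite_fst, sum_ite_fst,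
    dotProduct, ← Finset.sum_sub_distrib]
  refine Finset.sum_congr rfl fun i _ => ?_
  simp only [Pi.sub_apply]
  ring

lemma row_inr (a : Fin 3 → Vec) (q : V → Vec) (v : V) (k : Fin 3) (m : V → Vec) :
    ∑ c, row a q (Sum.inr (v, k)) c * m c.1 c.2 = a k ⬝ᵥ m v := by
  have h1 : ∀ c : V × Fin 3, row a q (Sum.inr (v, k)) c * m c.1 c.2 =
      (if c.1 = v then a k c.2 * m c.1 c.2 else 0) := by
    intro c
    simp only [row]
    split_ifs <;> ring
  rw [Finset.sum_congr rfl fun c _ => h1 c, sum_ite_fst, dotProduct]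

/-- frames: two vectors and their cross product -/
def Frame (a : Fin 3 → Vec) : Prop := a 0 ⨯₃ a 1 ≠ 0 ∧ a 2 = a 0 ⨯₃ a 1

lemma frame_zero {a : Fin 3 → Vec} (ha : Frame a) (y : Vec) (h : ∀ k, a k ⬝ᵥ y = 0) : y = 0 := by
  have h0 := h 0
  have h1 := h 1
  have h2 := h 2
  have hn := ha.1
  rw [ha.2] at h2
  have hnn : (a 0 ⨯₃ a 1) ⬝ᵥ (a 0 ⨯₃ a 1) ≠ 0 := fun h0 => hn (dotProduct_self_eq_zero.mp h0)
  rw [dot3] at h0 h1
  rw [cross_eq, dot3] at h2
  simp only [Matrix.cons_val] at h2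
  have hs' : (a 0 ⨯₃ a 1) ⬝ᵥ (a 0 ⨯₃ a 1) = (a 0 1 * a 1 2 - a 0 2 * a 1 1)^2 +
      (a 0 2 * a 1 0 - a 0 0 * a 1 2)^2 + (a 0 0 * a 1 1 - a 0 1 * a 1 0)^2 := by
    rw [cross_eq, dot3]
    simp only [Matrix.cons_val]
    ring
  funext i
  rw [Pi.zero_apply]
  apply (mul_eq_zero.mp (_ : ((a 0 ⨯₃ a 1) ⬝ᵥ (a 0 ⨯₃ a 1)) * y i = 0)).resolve_left hnn
  rw [hs']
  fin_cases i <;> simp only [Fin.zero_eta, Fin.mk_one, Fin.reduceFinMk]
  · linear_combination (a 0 1 * a 1 2 - a 0 2 * a 1 1) * h2 + ((a 0 2 * a 1 0 - a 0 0 * a 1 2) * a 0 2 - (a 0 0 * a 1 1 - a 0 1 * a 1 0) * a 0 1) * h1 + (a 1 1 * (a 0 0 * a 1 1 - a 0 1 * a 1 0) - a 1 2 * (a 0 2 * a 1 0 - a 0 0 * a 1 2)) * h0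
  · linear_combination (a 0 2 * a 1 0 - a 0 0 * a 1 2) * h2 + ((a 0 0 * a 1 1 - a 0 1 * a 1 0) * a 0 0 - (a 0 1 * a 1 2 - a 0 2 * a 1 1) * a 0 2) * h1 + (a 1 2 * (a 0 1 * a 1 2 - a 0 2 * a 1 1) - a 1 0 * (a 0 0 * a 1 1 - a 0 1 * a 1 0)) * h0
  · linear_combination (a 0 0 * a 1 1 - a 0 1 * a 1 0) * h2 + ((a 0 1 * a 1 2 - a 0 2 * a 1 1) * a 0 1 - (a 0 2 * a 1 0 - a 0 0 * a 1 2) * a 0 0) * h1 + (a 1 0 * (a 0 2 * a 1 0 - a 0 0 * a 1 2) - a 1 1 * (a 0 1 * a 1 2 - a 0 2 * a 1 1)) * h0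

lemma frame_indep {a : Fin 3 → Vec} (ha : Frame a) (g : Fin 3 → ℝ)
    (h : ∀ i, ∑ k, g k * a k i = 0) : g = 0 := by
  have e0 := h 0
  have e1 := h 1
  have e2 := h 2
  simp only [Fin.sum_univ_three] at e0 e1 e2
  have hn := ha.1
  have hnn : (a 0 ⨯₃ a 1) ⬝ᵥ (a 0 ⨯₃ a 1) ≠ 0 := fun h0 => hn (dotProduct_self_eq_zero.mp h0)
  have hs' : (a 0 ⨯₃ a 1) ⬝ᵥ (a 0 ⨯₃ a 1) = (a 0 1 * a 1 2 - a 0 2 * a 1 1)^2 +
      (a 0 2 * a 1 0 - a 0 0 * a 1 2)^2 + (a 0 0 * a 1 1 - a 0 1 * a 1 0)^2 := by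
    rw [cross_eq, dot3]
    simp only [Matrix.cons_val]
    ring
  have c0 : a 2 0 = a 0 1 * a 1 2 - a 0 2 * a 1 1 := by rw [ha.2, cross_eq]; simp
  have c1 : a 2 1 = a 0 2 * a 1 0 - a 0 0 * a 1 2 := by rw [ha.2, cross_eq]; simp
  have c2 : a 2 2 = a 0 0 * a 1 1 - a 0 1 * a 1 0 := by rw [ha.2, cross_eq]; simp
  rw [hs'] at hnn
  have g2 : g 2 = 0 := by
    apply (mul_eq_zero.mp (_ : _ * g 2 = 0)).resolve_left hnn
    rw [c0] at e0
    rw [c1] at e1
    rw [c2] at e2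
    linear_combination (a 0 1 * a 1 2 - a 0 2 * a 1 1) * e0 +
      (a 0 2 * a 1 0 - a 0 0 * a 1 2) * e1 + (a 0 0 * a 1 1 - a 0 1 * a 1 0) * e2
  rw [g2, zero_mul, add_zero] at e0 e1 e2
  -- cross with `a 1` and with `a 0`
  have g0 : g 0 = 0 := by
    apply (mul_eq_zero.mp (_ : _ * g 0 = 0)).resolve_left hnn
    linear_combination
      (a 0 1 * a 1 2 - a 0 2 * a 1 1) * (a 1 2 * e1 - a 1 1 * e2) +
      (a 0 2 * a 1 0 - a 0 0 * a 1 2) * (a 1 0 * e2 - a 1 2 * e0) +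
      (a 0 0 * a 1 1 - a 0 1 * a 1 0) * (a 1 1 * e0 - a 1 0 * e1)
  have g1 : g 1 = 0 := by
    apply (mul_eq_zero.mp (_ : _ * g 1 = 0)).resolve_left hnn
    linear_combination
      (a 0 1 * a 1 2 - a 0 2 * a 1 1) * (a 0 1 * e2 - a 0 2 * e1) +
      (a 0 2 * a 1 0 - a 0 0 * a 1 2) * (a 0 2 * e0 - a 0 0 * e2) +
      (a 0 0 * a 1 1 - a 0 1 * a 1 0) * (a 0 0 * e1 - a 0 1 * e0)
  funext k
  fin_cases k
  · exact g0
  · exact g1
  · exact g2

/-- the pins are independent -/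
lemma pins_indep {a : Fin 3 → Vec} (ha : Frame a) (q : V → Vec) :
    LinearIndependent ℝ (fun x : V × Fin 3 => row a q (Sum.inr x)) := by
  rw [Fintype.linearIndependent_iff]
  intro g hg x
  have key : ∀ v, (fun k => g (v, k)) = 0 := by
    intro v
    apply frame_indep ha
    intro i
    have := congrFun hg (v, i)
    rw [Finset.sum_apply, Pi.zero_apply] at this
    rw [← this]
    have h1 : ∀ c : V × Fin 3, (g c • row a q (Sum.inr c)) (v, i) =
        if c.1 = v then g c * a c.2 i else 0 := by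
      intro c
      simp only [row, Pi.smul_apply, smul_eq_mul]
      by_cases e : c.1 = v
      · rw [if_pos e.symm, if_pos e]
      · rw [if_neg (fun k => e k.symm), if_neg e, mul_zero]
    rw [Finset.sum_congr rfl fun c _ => h1 c, sum_ite_fst]
  exact congrFun (key x.1) x.2

/-- the triangle -/
def Tr (x₁ x₂ x₃ v : V) : Prop := v = x₁ ∨ v = x₂ ∨ v = x₃

def Jx (H : SimpleGraph V) (x₁ x₂ x₃ : V) : Set (Ix V) :=
  {j | match j with
    | Sum.inl x => H.Adj x.1 x.2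
    | Sum.inr x => Tr x₁ x₂ x₃ x.1}

def Px (x₁ x₂ x₃ : V) : Set (Ix V) :=
  {j | match j with
    | Sum.inl _ => False
    | Sum.inr x => Tr x₁ x₂ x₃ x.1}

lemma Px_indep {a : Fin 3 → Vec} (ha : Frame a) (q : V → Vec) (x₁ x₂ x₃ : V) :
    LinearIndepOn ℝ (row a q) (Px x₁ x₂ x₃) := by
  have h := pins_indep ha q
  have h2 : LinearIndepOn ℝ (row a q) (Set.range (Sum.inr : V × Fin 3 → Ix V)) := by
    rw [linearIndepOn_range_iff Sum.inr_injective]
    exact h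
  apply h2.mono
  intro j hj
  cases j with
  | inl x => exact hj.elim
  | inr x => exact ⟨x, rfl⟩

lemma ker_J {a : Fin 3 → Vec} (ha : Frame a) (H : SimpleGraph V) (q : V → Vec) (x₁ x₂ x₃ : V)
    (m : V → Vec) :
    (∀ j ∈ Jx H x₁ x₂ x₃, ∑ c, row a q j c * m c.1 c.2 = 0) ↔ m ∈ Pn H q x₁ x₂ x₃ := by
  constructor
  · intro h
    have hp : ∀ v, Tr x₁ x₂ x₃ v → m v = 0 := by
      intro v hv
      apply frame_zero ha
      intro k
      have := h (Sum.inr (v, k)) hv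
      rwa [row_inr] at this
    refine ⟨?_, hp _ (Or.inl rfl), hp _ (Or.inr (Or.inl rfl)), hp _ (Or.inr (Or.inr rfl))⟩
    intro u w huw
    have := h (Sum.inl (u, w)) huw
    rwa [row_inl] at this
  · rintro ⟨h1, h2, h3, h4⟩ j hj
    cases j with
    | inl x =>
      obtain ⟨u, w⟩ := x
      rw [row_inl]
      exact h1 u w hj
    | inr x =>
      obtain ⟨v, k⟩ := x
      rw [row_inr]
      have : m v = 0 := by
        rcases hj with h | h | h
        · simp only at h; rw [h, h2]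
        · simp only at h; rw [h, h3]
        · simp only at h; rw [h, h4]
      rw [this, dotProduct_zero]

/-- the graph of the chosen bars and the triangle -/
def H0 (b : Set (Ix V)) (x₁ x₂ x₃ : V) : SimpleGraph V where
  Adj u w := u ≠ w ∧ ((Sum.inl (u, w) ∈ b ∨ Sum.inl (w, u) ∈ b) ∨
    (Tr x₁ x₂ x₃ u ∧ Tr x₁ x₂ x₃ w))
  symm := ⟨fun _ _ h => ⟨h.1.symm, h.2.elim (fun k => Or.inl k.symm) fun k => Or.inr k.symm⟩⟩
  loopless := ⟨fun _ h => h.1 rfl⟩

lemma ker_b {a : Fin 3 → Vec} (ha : Frame a) (H : SimpleGraph V) (q : V → Vec) (x₁ x₂ x₃ : V)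
    (b : Set (Ix V)) (hb1 : b ⊆ Jx H x₁ x₂ x₃) (hb2 : Px x₁ x₂ x₃ ⊆ b) (m : V → Vec) :
    (∀ j ∈ b, ∑ c, row a q j c * m c.1 c.2 = 0) ↔ m ∈ Pn (H0 b x₁ x₂ x₃) q x₁ x₂ x₃ := by
  constructor
  · intro h
    have hp : ∀ v, Tr x₁ x₂ x₃ v → m v = 0 := by
      intro v hv
      apply frame_zero ha
      intro k
      have := h (Sum.inr (v, k)) (hb2 hv)
      rwa [row_inr] at this
    refine ⟨?_, hp _ (Or.inl rfl), hp _ (Or.inr (Or.inl rfl)), hp _ (Or.inr (Or.inr rfl))⟩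
    rintro u w ⟨_, (h1 | h1) | h1⟩
    · have := h _ h1
      rwa [row_inl] at this
    · have := h _ h1
      rw [row_inl] at this
      rw [← neg_sub (m w), ← neg_sub (q w), neg_dotProduct, dotProduct_neg, neg_neg, this]
    · rw [hp u h1.1, hp w h1.2, sub_zero, zero_dotProduct]
  · rintro ⟨h1, h2, h3, h4⟩ j hj
    cases j with
    | inl x =>
      obtain ⟨u, w⟩ := x
      rw [row_inl]
      have hH : H.Adj u w := hb1 hj
      exact h1 u w ⟨hH.ne, Or.inl (Or.inl hj)⟩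
    | inr x =>
      obtain ⟨v, k⟩ := x
      rw [row_inr]
      have hT : Tr x₁ x₂ x₃ v := hb1 hj
      have : m v = 0 := by
        rcases hT with h | h | h
        · rw [h, h2]
        · rw [h, h3]
        · rw [h, h4]
      rw [this, dotProduct_zero]

lemma H0_le (H : SimpleGraph V) (x₁ x₂ x₃ : V) (h12 : H.Adj x₁ x₂) (h13 : H.Adj x₁ x₃)
    (h23 : H.Adj x₂ x₃) (b : Set (Ix V)) (hb1 : b ⊆ Jx H x₁ x₂ x₃) (u w : V)
    (h : (H0 b x₁ x₂ x₃).Adj u w) : H.Adj u w := by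
  obtain ⟨hne, (h | h) | ⟨h1, h2⟩⟩ := h
  · exact hb1 h
  · exact (hb1 h : H.Adj w u).symm
  · rcases h1 with rfl | rfl | rfl <;> rcases h2 with rfl | rfl | rfl <;>
      first
      | exact absurd rfl hne
      | assumption
      | exact SimpleGraph.Adj.symm ‹_›

/-- the linear equivalence between the two kinds of vectors -/
def crv (V : Type) : (V × Fin 3 → ℝ) ≃ₗ[ℝ] (V → Vec) := LinearEquiv.curry ℝ ℝ V (Fin 3)

lemma crv_apply (x : V × Fin 3 → ℝ) (v : V) (i : Fin 3) : crv V x v i = x (v, i) := rfl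

theorem exists_b {a : Fin 3 → Vec} (ha : Frame a) (H : SimpleGraph V) (p : V → Vec)
    (x₁ x₂ x₃ : V) (h1 : finrank ℝ (Pn H p x₁ x₂ x₃) = 1) :
    ∃ b : Set (Ix V), b ⊆ Jx H x₁ x₂ x₃ ∧ Px x₁ x₂ x₃ ⊆ b ∧
      Pn (H0 b x₁ x₂ x₃) p x₁ x₂ x₃ = Pn H p x₁ x₂ x₃ ∧
      Fintype.card b + 1 = Fintype.card (V × Fin 3) := by
  have hPJ : Px x₁ x₂ x₃ ⊆ Jx H x₁ x₂ x₃ := by
    intro j hj
    cases j with
    | inl x => exact hj.elim
    | inr x => exact hj
  obtain ⟨b, hb1, hb2, hb3, hb4⟩ := exists_linearIndepOn_extension (Px_indep ha p x₁ x₂ x₃) hPJ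
  have hker : ∀ m : V → Vec, (∀ j ∈ b, ∑ c, row a p j c * m c.1 c.2 = 0) →
      ∀ j ∈ Jx H x₁ x₂ x₃, ∑ c, row a p j c * m c.1 c.2 = 0 := by
    intro m hm j hj
    have hmem : row a p j ∈ Submodule.span ℝ (row a p '' b) := hb3 ⟨j, hj, rfl⟩
    have hle : Submodule.span ℝ (row a p '' b) ≤
        LinearMap.ker (Matrix.mulVecLin (Matrix.of fun (_ : Unit) (c : V × Fin 3) => m c.1 c.2)) := by
      rw [Submodule.span_le]
      rintro _ ⟨k, hk, rfl⟩
      rw [SetLike.mem_coe, LinearMap.mem_ker]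
      funext u
      simp only [Matrix.mulVecLin_apply, Matrix.mulVec, dotProduct, Matrix.of_apply, Pi.zero_apply]
      rw [← hm k hk]
      exact Finset.sum_congr rfl fun c _ => mul_comm _ _
    have := hle hmem
    rw [LinearMap.mem_ker] at this
    have h2 := congrFun this ()
    simp only [Matrix.mulVecLin_apply, Matrix.mulVec, dotProduct, Matrix.of_apply,
      Pi.zero_apply] at h2
    rw [← h2]
    exact Finset.sum_congr rfl fun c _ => mul_comm _ _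
  have heq : Pn (H0 b x₁ x₂ x₃) p x₁ x₂ x₃ = Pn H p x₁ x₂ x₃ := by
    ext m
    rw [← ker_b ha H p x₁ x₂ x₃ b hb1 hb2, ← ker_J ha H p x₁ x₂ x₃]
    exact ⟨hker m, fun h j hj => h j (hb1 hj)⟩
  refine ⟨b, hb1, hb2, heq, ?_⟩
  set M : Matrix b (V × Fin 3) ℝ := Matrix.of fun j c => row a p j c with hM
  have hrank : M.rank = Fintype.card b := by
    apply LinearIndependent.rank_matrix
    exact hb4
  have hsum := LinearMap.finrank_range_add_finrank_ker M.mulVecLin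
  have hk : finrank ℝ (LinearMap.ker M.mulVecLin) = 1 := by
    rw [← h1, ← heq]
    have e1 : (LinearMap.ker M.mulVecLin).map (crv V : (V × Fin 3 → ℝ) →ₗ[ℝ] (V → Vec)) =
        Pn (H0 b x₁ x₂ x₃) p x₁ x₂ x₃ := by
      ext m
      rw [Submodule.mem_map, ← ker_b ha H p x₁ x₂ x₃ b hb1 hb2]
      constructor
      · rintro ⟨x, hx, rfl⟩ j hj
        rw [LinearMap.mem_ker] at hx
        exact congrFun hx ⟨j, hj⟩
      · intro h
        refine ⟨(crv V).symm m, ?_, by simp⟩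
        rw [LinearMap.mem_ker]
        funext j
        exact h j j.2
    rw [← e1]
    exact (LinearEquiv.finrank_map_eq (crv V) (LinearMap.ker M.mulVecLin)).symm
  have hr2 : M.rank = finrank ℝ (LinearMap.range M.mulVecLin) := rfl
  rw [hk, ← hr2, hrank, finrank_fintype_fun_eq_card] at hsum
  exact hsum

end

end Pool.Agent.H65.MG
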